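import Pool.Agent.MP_070445_nt.W71.Defs

namespace Pool.Agent.MP_070445_nt.W71

open Polynomial

theorem cha (h1 : TEX) : CHA := by
  intro k _ _ r D v hv c
  obtain ⟨τ, hτ⟩ := h1 k v
  have t : (2 : k[X]) = 0 := CharTwo.two_eq_zero
  have hL : ∀ e : k, (D.L + C e).comp (X + C v) = D.L + C e := fun e => by
    rw [add_comp, D.inv v hv, C_comp]
  have hw : ∀ e ∈ D.S, ((D.w e).comp (X + C v)) ^ 2 + (D.w e).comp (X + C v) =
      (D.L + C e) ^ 3 + D.f.comp (X + C v) := fun e he => by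
    have := congrArg (fun p : k[X] => p.comp (X + C v)) (D.eqn e he)
    simpa only [add_comp, pow_comp, D.inv v hv, C_comp] using this
  have hd : (io k ((D.w c.1).comp (X + C v) + D.w c.1)) ^ 2 +
      io k ((D.w c.1).comp (X + C v) + D.w c.1) = τ (io k D.f) + io k D.f := by
    rw [hτ, ← map_pow, ← map_add, ← map_add]
    congr 1
    linear_combination hw c.1 c.2 + D.eqn c.1 c.2 +
      ((D.w c.1).comp (X + C v) * D.w c.1 + (D.L + C c.1) ^ 3) * t
  obtain ⟨φ, hφ⟩ := exists_hom τ hd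
  have key : ∀ e : D.S, ∃ h', φ (D.ph (io k) e) = pt (io k D.f) (io k (D.L + C e.1))
      (io k ((D.w e.1).comp (X + C v) + ((D.w c.1).comp (X + C v) + D.w c.1))) h' := by
    intro e
    have ex : τ (io k (D.L + C e.1)) = io k (D.L + C e.1) := by rw [hτ, hL]
    have ey : τ (io k (D.w e.1)) + io k ((D.w c.1).comp (X + C v) + D.w c.1) =
        io k ((D.w e.1).comp (X + C v) + ((D.w c.1).comp (X + C v) + D.w c.1)) := by
      rw [hτ, ← map_add]
    have h0 : io k (D.w e.1) ^ 2 + io k (D.w e.1) = io k (D.L + C e.1) ^ 3 + io k D.f := by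
      simpa only [map_add, map_pow] using congrArg (io k) (D.eqn e.1 e.2)
    have h2 := hom_eqn τ hd h0
    refine ⟨by rw [← ex, ← ey]; exact h2, ?_⟩
    exact (hφ _ _ h0).trans (pt_inj.2 ⟨ex, ey⟩)
  refine ⟨φ, ⟨τ, _, hτ, hd, fun x y h => ⟨_, hφ x y h⟩⟩, ?_, fun e => ?_, fun e he => ?_⟩
  · obtain ⟨h', e⟩ := key c
    have e2 : (D.w c.1).comp (X + C v) + ((D.w c.1).comp (X + C v) + D.w c.1) = D.w c.1 := by
      linear_combination ((D.w c.1).comp (X + C v)) * t
    have h0 : io k (D.w c.1) ^ 2 + io k (D.w c.1) = io k (D.L + C c.1) ^ 3 + io k D.f := by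
      simpa only [map_add, map_pow] using congrArg (io k) (D.eqn c.1 c.2)
    rw [e]
    exact (pt_inj (h := h') (h' := h0)).2 ⟨rfl, congrArg (io k) e2⟩
  · obtain ⟨h', e'⟩ := key e
    have h0 : io k (D.w e.1) ^ 2 + io k (D.w e.1) = io k (D.L + C e.1) ^ 3 + io k D.f := by
      simpa only [map_add, map_pow] using congrArg (io k) (D.eqn e.1 e.2)
    rw [e']
    exact pt_same_x h0 h'
  · obtain ⟨h', e'⟩ := key e
    have h0 : io k (D.w e.1) ^ 2 + io k (D.w e.1) = io k (D.L + C e.1) ^ 3 + io k D.f := by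
      simpa only [map_add, map_pow] using congrArg (io k) (D.eqn e.1 e.2)
    have := ((pt_inj (h := h') (h' := h0)).1 (e'.symm.trans he)).2
    have h3 := IsFractionRing.injective k[X] (RatFunc k) this
    rw [add_comp]
    linear_combination h3 - (D.w c.1) * t

end Pool.Agent.MP_070445_nt.W71
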