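import Pool.Agent.MP_070445_nt.W71.Defs

namespace Pool.Agent.MP_070445_nt.W71

open Polynomial

theorem chb : CHB := by
  intro k _ _ r D c hc e he hne
  by_contra hcon
  push Not at hcon
  have t : (2 : k[X]) = 0 := CharTwo.two_eq_zero
  have tk : (2 : k) = 0 := CharTwo.two_eq_zero
  obtain ⟨u, hu⟩ : ∃ u, u = D.w c + D.w e := ⟨_, rfl⟩
  rw [← hu] at hcon
  have hpos : 0 < 2 ^ r := Nat.pos_of_ne_zero (by positivity)
  have hq : u ^ 2 + u = C (c + e) * D.L ^ 2 + C ((c + e) ^ 2) * D.L + C (c ^ 3 + e ^ 3) := by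
    simp only [map_add, map_pow]
    rw [hu]
    linear_combination D.eqn c hc + D.eqn e he + (D.w c * D.w e + D.L ^ 3 + D.f +
      (C c + C e) * D.L ^ 2 + (C c ^ 2 + C e ^ 2 - C c * C e) * D.L) * t
  have hdeg : u.natDegree ≤ 2 ^ r := by
    by_contra hlt
    push Not at hlt
    have a1 : (u ^ 2 + u).natDegree = 2 * u.natDegree := by
      rw [natDegree_add_eq_left_of_natDegree_lt, natDegree_pow]
      rw [natDegree_pow]; omega
    have a2 : (u ^ 2 + u).natDegree ≤ 2 * 2 ^ r := by
      rw [hq]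
      refine natDegree_add_le_of_degree_le (natDegree_add_le_of_degree_le ?_ ?_) ?_
      · refine (natDegree_C_mul_le _ _).trans ?_
        rw [natDegree_pow, D.degL]
      · refine (natDegree_C_mul_le _ _).trans ?_
        rw [D.degL]; omega
      · rw [natDegree_C]; omega
    omega
  have : Finite D.V := Nat.finite_of_card_ne_zero (by rw [D.cardV]; omega)
  have : Fintype D.V := Fintype.ofFinite _
  have hLv : ∀ v ∈ D.V, D.L.eval v = 0 := fun v hv => by
    have := congrArg (eval 0) (D.inv v hv)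
    simpa [eval_comp, D.L0] using this
  have huv : ∀ v ∈ D.V, u.eval v = u.eval 0 := fun v hv => by
    have := congrArg (eval 0) (hcon v hv)
    simpa [eval_comp] using this
  obtain ⟨α, hα⟩ : ∃ α, α = u.coeff (2 ^ r) := ⟨_, rfl⟩
  obtain ⟨β, hβ⟩ : ∃ β, β = u.eval 0 := ⟨_, rfl⟩
  have hz : u - C α * D.L - C β = 0 := by
    refine eq_zero_of_degree_lt_of_eval_index_eq_zero (ι := D.V) (Finset.univ : Finset D.V)
      (v := fun v : D.V => (v : k)) (fun a _ b _ h => Subtype.ext h) ?_ ?_
    · rw [Finset.card_univ, ← Nat.card_eq_fintype_card, D.cardV, degree_lt_iff_coeff_zero]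
      intro m hm
      have hm' : 2 ^ r ≤ m := by exact_mod_cast hm
      have c0 : (C β : k[X]).coeff m = 0 := coeff_C_of_ne_zero (by omega)
      rw [coeff_sub, coeff_sub, coeff_C_mul, c0]
      rcases hm'.eq_or_lt with h | h
      · have : D.L.coeff m = 1 := by rw [← h, ← D.degL]; exact D.monic.coeff_natDegree
        rw [this, hα, h]; ring
      · rw [coeff_eq_zero_of_natDegree_lt (p := u) (by omega),
          coeff_eq_zero_of_natDegree_lt (p := D.L) (by rw [D.degL]; omega)]
        ring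
    · intro v _
      rw [eval_sub, eval_sub, eval_mul, eval_C, eval_C, hLv v v.2, huv v v.2, hβ]
      ring
  have hu2 : u = C α * D.L + C β := by linear_combination hz
  have h5 : D.L * (C (α ^ 2 + (c + e)) * D.L + C (α + (c + e) ^ 2)) +
      C (β ^ 2 + β + (c ^ 3 + e ^ 3)) = 0 := by
    rw [hu2] at hq
    simp only [map_add, map_pow] at hq ⊢
    linear_combination hq + ((C c + C e) * D.L ^ 2 + (C c + C e) ^ 2 * D.L + (C c ^ 3 + C e ^ 3)
      - C α * D.L * C β) * t
  have h6 : β ^ 2 + β + (c ^ 3 + e ^ 3) = 0 := by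
    have := congrArg (eval 0) h5
    rwa [eval_add, eval_mul, D.L0, zero_mul, zero_add, eval_C, eval_zero] at this
  rw [h6, C_0, add_zero] at h5
  have h7 := (mul_eq_zero.1 h5).resolve_left D.monic.ne_zero
  have h8 : α + (c + e) ^ 2 = 0 := by
    have := congrArg (eval 0) h7
    rwa [eval_add, eval_mul, D.L0, mul_zero, zero_add, eval_C, eval_zero] at this
  rw [h8, C_0, add_zero] at h7
  have h9 : α ^ 2 + (c + e) = 0 := C_eq_zero.1 ((mul_eq_zero.1 h7).resolve_right D.monic.ne_zero)
  apply D.pair c hc e he hne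
  linear_combination h9 - (α - (c + e) ^ 2) * h8 - (c + e) * tk

end Pool.Agent.MP_070445_nt.W71
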