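import Pool.Agent.MP_070445_nt.W71.Defs

namespace Pool.Agent.MP_070445_nt.W71

open Polynomial

theorem core (h1 : GEN1) (h2 : GEN2) (h3 : RED) (h4 : TORS) (h5 : PIG) (h6 : ZERO) : CORE := by
  intro k F _ _ _ _ _ _ j r a m N D t hr hN c1 c2 c3 c4 c5
  classical
  have dL : (D.L.map j - C t).natDegree = 2 ^ r := by
    rw [natDegree_sub_C, D.monic.natDegree_map, D.degL]
  obtain ⟨s, hs⟩ := IsAlgClosed.exists_root (D.L.map j - C t)
    (natDegree_pos_iff_degree_pos.1 (by rw [dL]; positivity)).ne'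
  rw [IsRoot, eval_sub, eval_C, sub_eq_zero, eval_map] at hs
  obtain ⟨ev, hev⟩ : ∃ ev : k[X] →+* F, ev = eval₂RingHom j s := ⟨_, rfl⟩
  have ev1 : ∀ p, ev p = p.eval₂ j s := fun p => by rw [hev]; rfl
  obtain ⟨d, hd⟩ := H16w.as_root (ev D.f)
  obtain ⟨χ, hχ⟩ := exists_hom (RingHom.id F) (g := 0) (g' := ev D.f) (d := d) (by simpa using hd)
  have tor : ∀ c : D.S, N • D.ph ev c = 0 := by
    intro c
    obtain ⟨y, h, e⟩ := c3 c.1 c.2
    have e1 := congrArg χ e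
    rw [map_nsmul, map_zero, hχ] at e1
    have ex : ev (D.L + C c.1) = t + j c.1 := by rw [ev1, eval₂_add, hs, eval₂_C]
    have e2 : ev (D.w c.1) ^ 2 + ev (D.w c.1) = (t + j c.1) ^ 3 + ev D.f := by
      rw [← ex]
      simpa only [map_add, map_pow] using congrArg ev (D.eqn c.1 c.2)
    have e3 : D.ph ev c = pt (ev D.f) (t + j c.1) (ev (D.w c.1)) e2 := by
      unfold Dat.ph mp
      exact pt_inj.2 ⟨ex, rfl⟩
    rw [e3]
    rcases pt_same_x (hom_eqn (RingHom.id F) (g := 0) (g' := ev D.f) (d := d) (by simpa using hd) h)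
      e2 with e4 | e4
    · exact (congrArg (N • ·) e4).trans e1
    · refine (congrArg (N • ·) e4).trans ?_
      simp only [neg_nsmul, neg_eq_zero]
      exact e1
  obtain ⟨T, t1, t2⟩ := h4 F (ev D.f) N hN
  obtain ⟨n, n1, n2, ⟨ξ, n3⟩, n4⟩ := h5 _ _ D.S (D.ph (io k)) (D.ph ev) D.M _ T N _
    (fun c => AddSubgroup.subset_closure ⟨c, rfl⟩) (h1 k r a D) tor t2 (by
      rw [Fintype.card_coe]
      exact lt_of_le_of_lt (Nat.mul_le_mul t1 (Nat.pow_le_pow_left c1 _)) c5)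
  obtain ⟨g1, g2⟩ := h2 k r D n n1 n2
  rw [← n3, ht_piN] at g1 g2
  rcases pt_cases ξ with rfl | ⟨x, y, h, rfl⟩
  · simp [ht_zero] at g1
  obtain ⟨y', h', e⟩ := piN_pt h a
  have r1 := h3 k F D.S ev D.f (fun c => D.L + C c.1) (fun c => D.w c.1) (fun c => D.eqn c.1 c.2)
    Finset.univ n _ _ h' (n3.symm.trans e) n4
  have r2 : (x ^ 2 ^ a).denom ∣ x.denom ^ 2 ^ a := by
    refine (RatFunc.denom_dvd (pow_ne_zero _ x.denom_ne_zero)).2 ⟨x.num ^ 2 ^ a, ?_⟩
    rw [map_pow, map_pow, ← div_pow, RatFunc.num_div_denom]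
  have r3 : ev x.denom = 0 := by
    obtain ⟨q, hq⟩ := r2
    have := congrArg ev hq
    rw [map_mul, r1, zero_mul, map_pow] at this
    exact pow_eq_zero_iff (by positivity) |>.1 this
  have z := h6 k F j r m D.L x.denom s hr c2 x.denom_ne_zero (by rw [← ev1, r3]) (by rw [hs]; exact c4)
  rw [ht_pt] at g2
  have z2 := HT.den_le x
  calc m * 2 ^ a ≤ 2 * r * HT.hr x * 2 ^ a :=
        Nat.mul_le_mul_right _ (z.trans (Nat.mul_le_mul_left _ z2))
    _ = 2 * r * (2 ^ a * HT.hr x) := by ring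
    _ ≤ 2 * r * 4 ^ r := Nat.mul_le_mul_left _ g2

end Pool.Agent.MP_070445_nt.W71
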