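import Pool.Agent.MP_070445_nt.W71.Defs

/-! The data of the auxiliary curve over the field with `4 ^ r` elements. -/

namespace Pool.Agent.MP_070445_nt.W71

open Polynomial

namespace DATAx

/-- The elements fixed by the `n`-th power of Frobenius, as an additive group. -/
def Vf (k : Type) [Field k] [CharP k 2] (n : ℕ) : AddSubgroup k where
  carrier := {z | z ^ 2 ^ n = z}
  zero_mem' := zero_pow (by positivity)
  add_mem' := fun {a b} ha hb => by
    change (a + b) ^ 2 ^ n = a + b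
    rw [add_pow_char_pow, ha, hb]
  neg_mem' := fun {a} ha => by
    change (-a) ^ 2 ^ n = -a
    rw [CharTwo.neg_eq, ha]

theorem mem_Vf {k : Type} [Field k] [CharP k 2] {n : ℕ} {z : k} : z ∈ Vf k n ↔ z ^ 2 ^ n = z :=
  Iff.rfl

theorem ev {k : Type} [Field k] [CharP k 2] (e : ℕ) (z : k) :
    (H16w.Lp k {e}).eval z = 0 ↔ z ^ 2 ^ (e + 1) = z := by
  rw [H16w.Lp_eq, Finset.sum_singleton, eval_add, eval_X, eval_pow, eval_X, CharTwo.add_eq_zero,
    eq_comm]

theorem t1 (e : ℕ) : ∀ i ∈ ({e} : Finset ℕ), i ≤ e := fun _ hi => (Finset.mem_singleton.1 hi).le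

variable (F : Type) [Field F] [CharP F 2]

/-- The subfield of elements fixed by the `2 n`-th power of Frobenius. -/
def Kf (n : ℕ) : Subfield F :=
  RingHom.eqLocusField ((iterateFrobenius F 2 n).comp (iterateFrobenius F 2 n)) (RingHom.id F)

variable {F}

theorem pw (n : ℕ) (z : F) :
    ((iterateFrobenius F 2 n).comp (iterateFrobenius F 2 n)) z = z ^ 4 ^ n := by
  rw [RingHom.comp_apply, iterateFrobenius_def, iterateFrobenius_def, ← pow_mul, ← mul_pow]
  rfl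

theorem mem_Kf {n : ℕ} {z : F} : z ∈ Kf F n ↔ z ^ 4 ^ n = z := by
  rw [Kf, RingHom.mem_eqLocusField, pw, RingHom.id_apply]

theorem mem_of {n : ℕ} {z : F} (h : z ^ 2 ^ n = z) : z ∈ Kf F n := by
  rw [mem_Kf, show (4 : ℕ) = 2 * 2 from rfl, mul_pow, pow_mul, h, h]

theorem fin (e : ℕ) : Finite (Kf F (e + 1)) ∧ Nat.card (Kf F (e + 1)) ≤ 4 ^ (e + 1) := by
  classical
  have h : 1 < 4 ^ (e + 1) := Nat.one_lt_pow (by omega) (by omega)
  have p0 := FiniteField.X_pow_card_sub_X_ne_zero F h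
  have d := FiniteField.X_pow_card_sub_X_natDegree_eq F h
  have s : ((Kf F (e + 1) : Set F)) = ((X ^ 4 ^ (e + 1) - X : F[X]).roots.toFinset : Set F) := by
    ext z
    rw [SetLike.mem_coe, mem_Kf, Finset.mem_coe, Multiset.mem_toFinset, mem_roots p0, IsRoot,
      eval_sub, eval_pow, eval_X, sub_eq_zero]
  refine ⟨(show (Kf F (e + 1) : Set F).Finite from s ▸ Finset.finite_toSet _).to_subtype, ?_⟩
  calc Nat.card (Kf F (e + 1)) = (Kf F (e + 1) : Set F).ncard := Nat.card_coe_set_eq _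
    _ = (X ^ 4 ^ (e + 1) - X : F[X]).roots.toFinset.card := by rw [s, Set.ncard_coe_finset]
    _ ≤ 4 ^ (e + 1) := ((Multiset.toFinset_card_le _).trans (card_roots' _)).trans d.le

theorem cardV [IsAlgClosed F] (e : ℕ) : Nat.card (Vf (Kf F (e + 1)) (e + 1)) = 2 ^ (e + 1) := by
  classical
  have g := H16w.good_Lp (F := F) (t1 e) (Finset.mem_singleton_self e)
  have s : (H16w.Lp F {e}).Separable := by
    rw [separable_def, g.der]
    exact isCoprime_one_right
  have m : ∀ z, z ∈ (H16w.Lp F {e}).roots.toFinset ↔ z ^ 2 ^ (e + 1) = z := fun z => by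
    rw [Multiset.mem_toFinset, mem_roots g.monic.ne_zero, IsRoot, ev]
  rw [← (H16w.degs (R := F) (t1 e) (Finset.mem_singleton_self e)).1.2,
    ← IsAlgClosed.card_roots_eq_natDegree, ← Multiset.toFinset_card_of_nodup (nodup_roots s),
    ← Nat.card_eq_finsetCard]
  refine Nat.card_eq_of_bijective (fun v => ⟨v.1.1, (m _).2 (congrArg Subtype.val v.2)⟩)
    ⟨fun a b h => Subtype.ext (Subtype.ext (Subtype.mk.inj h)), fun z => ?_⟩
  exact ⟨⟨⟨z.1, mem_of ((m _).1 z.2)⟩, Subtype.ext ((m _).1 z.2)⟩, rfl⟩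

theorem exw [IsAlgClosed F] (e : ℕ) (c : Kf F (e + 1)) (hc : c ^ 2 ^ (e + 1) = c) :
    ∃ w : (Kf F (e + 1))[X], w ^ 2 + w = (H16w.Lp _ {e} + C c) ^ 3 + H16w.fp _ {e} := by
  have h : (c : F) ^ 2 ^ (e + 1) = c := congrArg Subtype.val hc
  obtain ⟨V, hV⟩ := H16w.exists_V (t1 e) (c := (c : F)) (by
    rw [H16w.Ker, Finset.sum_singleton, Nat.sub_self, pow_zero, pow_one, h,
      CharTwo.add_self_eq_zero])
  have f := H16w.fix_V (iterateFrobenius F 2 (e + 1)) (H16w.Lp_map _ _) h hV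
  obtain ⟨U, rfl⟩ : ∃ U : (Kf F (e + 1))[X], U.map (Kf F (e + 1)).subtype = V := by
    refine (mem_lifts _).1 ((lifts_iff_coeff_lifts _).2 fun n => ⟨⟨V.coeff n, ?_⟩, rfl⟩)
    rw [mem_Kf, ← pw, ← coeff_map, f]
  have hU : U ^ 2 + U = (H16w.Lp _ {e} + C c) ^ 3 + H16w.Lp _ {e} ^ 3 := by
    refine map_injective _ (Kf F (e + 1)).subtype.injective ?_
    simpa only [Polynomial.map_add, Polynomial.map_pow, H16w.Lp_map, map_C,
      Subfield.coe_subtype] using hV
  refine ⟨U + H16w.Mp _ {e} * H16w.Lp _ {e}, ?_⟩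
  have t := CharTwo.two_eq_zero (R := (Kf F (e + 1))[X])
  have l : H16w.Lp (Kf F (e + 1)) {e} = X + H16w.Mp _ {e} ^ 2 := rfl
  rw [H16w.fp]
  generalize H16w.Lp (Kf F (e + 1)) {e} = L at *
  generalize H16w.Mp (Kf F (e + 1)) {e} = M at *
  linear_combination hU + L ^ 2 * l + (U * M * L + M ^ 2 * L ^ 2) * t

end DATAx

open DATAx in
theorem data (h1 : SEC) : DATA := by
  intro F _ _ _ r hr
  obtain ⟨e, rfl⟩ : ∃ e, r = e + 1 := ⟨r - 1, by omega⟩
  obtain ⟨f1, f2⟩ := fin (F := F) e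
  obtain ⟨S, s1, s2, s3⟩ := h1 (Kf F (e + 1)) (Vf _ (e + 1))
  choose! w hw using exw (F := F) e
  have g := H16w.good_Lp (F := Kf F (e + 1)) (t1 e) (Finset.mem_singleton_self e)
  have d := H16w.degs (R := Kf F (e + 1)) (t1 e) (Finset.mem_singleton_self e)
  refine ⟨Kf F (e + 1), inferInstance, inferInstance, f1, (Kf F (e + 1)).subtype,
    ⟨Vf _ (e + 1), H16w.Lp _ {e}, H16w.fp _ {e}, S, w, cardV e, g.monic, d.1.2, fun v hv => ?_,
      g.zero, d.2.2.le, fun c hc => hw c (s1 c hc), s3, (cardV (F := F) e).ge.trans s2, ?_⟩,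
    f2, fun z => Subtype.ext (mem_Kf.1 z.2), s1⟩
  · rw [g.comp, (ev e v).2 hv, C_0, add_zero]
  · rw [← d.1.2]
    refine card_le_degree_of_subset_roots fun z hz => ?_
    rw [mem_roots g.monic.ne_zero, IsRoot, ev]
    exact s1 z hz

end Pool.Agent.MP_070445_nt.W71
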