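import Pool.Agent.MP_070445_nt.W71.Defs

/-! The differential `dx/ds` of a point of `y² + y = x³ + f` over `k(s)` is a polynomial of small
degree. -/

namespace Pool.Agent.MP_070445_nt.W71.DC

open Polynomial

variable {k : Type*} [Field k]

lemma mul_den (x : RatFunc k) :
    x * algebraMap k[X] (RatFunc k) x.denom = algebraMap k[X] (RatFunc k) x.num := by
  have h := RatFunc.num_div_denom x
  have hd : algebraMap k[X] (RatFunc k) x.denom ≠ 0 := RatFunc.algebraMap_ne_zero x.denom_ne_zero
  rw [div_eq_iff hd] at h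
  exact h.symm

/-- `x = a / w²`, `y = c / w³` in lowest terms -/
lemma normal {f : k[X]} {x y : RatFunc k}
    (h : y ^ 2 + y = x ^ 3 + algebraMap k[X] (RatFunc k) f) :
    ∃ w : k[X], w ≠ 0 ∧ x.denom = w ^ 2 ∧ y.denom = w ^ 3 ∧
      y.num ^ 2 + y.num * w ^ 3 = x.num ^ 3 + f * w ^ 6 := by
  have hx := mul_den x
  have hy := mul_den y
  have e : (y.num ^ 2 + y.num * y.denom) * x.denom ^ 3 =
      (x.num ^ 3 + f * x.denom ^ 3) * y.denom ^ 2 := by
    apply RatFunc.algebraMap_injective k
    simp only [map_mul, map_add, map_pow]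
    rw [← hx, ← hy]
    linear_combination (algebraMap k[X] (RatFunc k) x.denom ^ 3 *
      algebraMap k[X] (RatFunc k) y.denom ^ 2) * h
  have cx := RatFunc.isCoprime_num_denom x
  have cy := RatFunc.isCoprime_num_denom y
  have d1 : x.denom ^ 3 ∣ y.denom ^ 2 :=
    (cx.symm.pow (m := 3) (n := 3)).dvd_of_dvd_mul_left
      ⟨y.num ^ 2 + y.num * y.denom - f * y.denom ^ 2, by linear_combination -e⟩
  have c2 : IsCoprime (y.denom ^ 2) (y.num * (y.num + y.denom * 1)) :=
    (IsCoprime.mul_right cy.symm (cy.symm.add_mul_left_right 1)).pow_left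
  have d2 : y.denom ^ 2 ∣ x.denom ^ 3 :=
    c2.dvd_of_dvd_mul_left ⟨x.num ^ 3 + f * x.denom ^ 3, by linear_combination e⟩
  have e2 : x.denom ^ 3 = y.denom ^ 2 := eq_of_monic_of_associated (x.monic_denom.pow 3)
    (y.monic_denom.pow 2) (associated_of_dvd_dvd d1 d2)
  obtain ⟨w, hw⟩ : x.denom ∣ y.denom := by
    rw [← IsIntegrallyClosed.pow_dvd_pow_iff (n := 2) two_ne_zero, ← e2]
    exact pow_dvd_pow _ (by norm_num)
  have hb : x.denom = w ^ 2 := mul_left_cancel₀ (pow_ne_zero 2 x.denom_ne_zero)
    (by rw [hw] at e2; linear_combination e2)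
  have he : y.denom = w ^ 3 := by rw [hw, hb]; ring
  have hw0 : w ≠ 0 := fun z => x.denom_ne_zero (by rw [hb, z]; simp)
  refine ⟨w, hw0, hb, he, mul_right_cancel₀ (pow_ne_zero 6 hw0) ?_⟩
  rw [hb, he] at e
  linear_combination e

lemma poly [CharP k 2] {f a c w : k[X]} {D : ℕ} (hD : 0 < D) (hf : f.natDegree ≤ 2 * D + 1)
    (hw : w ≠ 0) (hc : IsCoprime a w) (e : c ^ 2 + c * w ^ 3 = a ^ 3 + f * w ^ 6) :
    ∃ p : k[X], p.natDegree < D ∧ derivative a = w ^ 2 * p := by
  have h2 : (2 : k[X]) = 0 := CharTwo.two_eq_zero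
  have de := congrArg derivative e
  simp only [derivative_add, derivative_mul, derivative_pow, map_natCast, Nat.cast_ofNat,
    map_ofNat, Nat.add_one_sub_one] at de
  have e1 : a ^ 2 * derivative a =
      w ^ 2 * (derivative c * w + c * derivative w + derivative f * w ^ 4) := by
    linear_combination -de + (c * derivative c + c * w ^ 2 * derivative w - a ^ 2 * derivative a -
      derivative f * w ^ 6 - 3 * f * w ^ 5 * derivative w) * h2
  obtain ⟨p, hp⟩ : w ^ 2 ∣ derivative a :=
    (hc.symm.pow (m := 2) (n := 2)).dvd_of_dvd_mul_left ⟨_, e1⟩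
  refine ⟨p, ?_, hp⟩
  by_cases p0 : p = 0
  · simpa [p0] using hD
  have e2 : a ^ 2 * p = derivative c * w + c * derivative w + derivative f * w ^ 4 :=
    mul_left_cancel₀ (pow_ne_zero 2 hw) (by rw [← e1, hp]; ring)
  have ha' : derivative a ≠ 0 := by rw [hp]; exact mul_ne_zero (pow_ne_zero 2 hw) p0
  have ha0 : a.natDegree ≠ 0 := fun z => ha' (derivative_of_natDegree_zero z)
  have ha : a ≠ 0 := fun z => ha0 (by simp [z])
  have k1 := natDegree_derivative_lt ha0
  rw [hp, natDegree_mul (pow_ne_zero 2 hw) p0, natDegree_pow] at k1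
  rcases le_or_gt (3 * a.natDegree) (2 * D + 1 + 6 * w.natDegree) with b | b
  · omega
  have k2 : (f * w ^ 6).natDegree ≤ f.natDegree + (w ^ 6).natDegree := natDegree_mul_le
  rw [natDegree_pow] at k2
  have k3 : (a ^ 3 + f * w ^ 6).natDegree = 3 * a.natDegree := by
    rw [natDegree_add_eq_left_of_natDegree_lt (by rw [natDegree_pow]; omega), natDegree_pow]
  have k4 : (c * w ^ 3).natDegree ≤ c.natDegree + (w ^ 3).natDegree := natDegree_mul_le
  rw [natDegree_pow] at k4
  have k5 : 2 * c.natDegree = 3 * a.natDegree := by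
    rw [← e] at k3
    rcases le_or_gt c.natDegree (3 * w.natDegree) with b' | b'
    · have := natDegree_add_le (c ^ 2) (c * w ^ 3)
      rw [natDegree_pow] at this
      omega
    · rwa [natDegree_add_eq_left_of_natDegree_lt (by rw [natDegree_pow]; omega),
        natDegree_pow] at k3
  have k6 : (a ^ 2 * p).natDegree = 2 * a.natDegree + p.natDegree := by
    rw [natDegree_mul (pow_ne_zero 2 ha) p0, natDegree_pow]
  have k7 : (derivative c * w).natDegree ≤ (derivative c).natDegree + w.natDegree :=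
    natDegree_mul_le
  have k8 : (c * derivative w).natDegree ≤ c.natDegree + (derivative w).natDegree :=
    natDegree_mul_le
  have k9 : (derivative f * w ^ 4).natDegree ≤ (derivative f).natDegree + (w ^ 4).natDegree :=
    natDegree_mul_le
  rw [natDegree_pow] at k9
  have l1 := natDegree_derivative_le c
  have l2 := natDegree_derivative_le w
  have l3 := natDegree_derivative_le f
  have l4 := natDegree_add_le (derivative c * w + c * derivative w) (derivative f * w ^ 4)
  have l5 := natDegree_add_le (derivative c * w) (c * derivative w)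
  rw [e2] at k6
  omega

/-- the denominator of `x` is a square dividing the derivative of the numerator -/
theorem diff [CharP k 2] {f : k[X]} {D : ℕ} (hD : 0 < D) (hf : f.natDegree ≤ 2 * D + 1)
    {x y : RatFunc k} (h : y ^ 2 + y = x ^ 3 + algebraMap k[X] (RatFunc k) f) :
    ∃ p : k[X], p.natDegree < D ∧ derivative x.num = x.denom * p ∧ derivative x.denom = 0 := by
  obtain ⟨w, hw, hb, -, e⟩ := normal h
  have hc : IsCoprime x.num w := by
    have := RatFunc.isCoprime_num_denom x
    rw [hb] at this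
    exact (IsCoprime.pow_right_iff two_pos).1 this
  obtain ⟨p, h1, h2⟩ := poly hD hf hw hc e
  refine ⟨p, h1, by rw [hb, h2], ?_⟩
  have t : (2 : k[X]) = 0 := CharTwo.two_eq_zero
  rw [hb, pow_two, derivative_mul]
  linear_combination (w * derivative w) * t

/-- the derivative of a rational function -/
noncomputable def del (x : RatFunc k) : RatFunc k :=
  algebraMap k[X] (RatFunc k) (derivative x.num * x.denom - x.num * derivative x.denom) /
    algebraMap k[X] (RatFunc k) x.denom ^ 2

lemma del_spec {x : RatFunc k} {a b : k[X]}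
    (h : x * algebraMap k[X] (RatFunc k) b = algebraMap k[X] (RatFunc k) a) :
    del x * algebraMap k[X] (RatFunc k) b ^ 2 =
      algebraMap k[X] (RatFunc k) (derivative a * b - a * derivative b) := by
  have hd : algebraMap k[X] (RatFunc k) x.denom ≠ 0 := RatFunc.algebraMap_ne_zero x.denom_ne_zero
  have c : x.num * b = a * x.denom := by
    apply RatFunc.algebraMap_injective k
    rw [map_mul, map_mul, ← mul_den x, ← h]
    ring
  have dc := congrArg derivative c
  rw [derivative_mul, derivative_mul] at dc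
  rw [del, div_mul_eq_mul_div, div_eq_iff (pow_ne_zero 2 hd), ← map_pow, ← map_pow, ← map_mul,
    ← map_mul]
  congr 1
  linear_combination (x.denom * b) * dc - (derivative x.denom * b + x.denom * derivative b) * c

lemma del_add (x z : RatFunc k) : del (x + z) = del x + del z := by
  have hx := mul_den x
  have hz := mul_den z
  have h : (x + z) * algebraMap k[X] (RatFunc k) (x.denom * z.denom) =
      algebraMap k[X] (RatFunc k) (x.num * z.denom + z.num * x.denom) := by
    simp only [map_mul, map_add]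
    rw [← hx, ← hz]
    ring
  have h0 : algebraMap k[X] (RatFunc k) (x.denom * z.denom) ≠ 0 :=
    RatFunc.algebraMap_ne_zero (mul_ne_zero x.denom_ne_zero z.denom_ne_zero)
  apply mul_right_cancel₀ (pow_ne_zero 2 h0)
  have a := del_spec hx
  have b := del_spec hz
  rw [del_spec h]
  simp only [derivative_add, derivative_mul, map_mul, map_add, map_sub] at a b ⊢
  linear_combination -(algebraMap k[X] (RatFunc k) z.denom) ^ 2 * a -
    (algebraMap k[X] (RatFunc k) x.denom) ^ 2 * b

lemma del_sq [CharP k 2] (x : RatFunc k) : del (x ^ 2) = 0 := by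
  have t : (2 : k[X]) = 0 := CharTwo.two_eq_zero
  have h : x ^ 2 * algebraMap k[X] (RatFunc k) (x.denom * x.denom) =
      algebraMap k[X] (RatFunc k) (x.num * x.num) := by
    simp only [map_mul]
    rw [← mul_den x]
    ring
  have h0 : algebraMap k[X] (RatFunc k) (x.denom * x.denom) ≠ 0 :=
    RatFunc.algebraMap_ne_zero (mul_ne_zero x.denom_ne_zero x.denom_ne_zero)
  have a := del_spec h
  have z : derivative (x.num * x.num) * (x.denom * x.denom) -
      x.num * x.num * derivative (x.denom * x.denom) = 0 := by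
    simp only [derivative_mul]
    linear_combination (derivative x.num * x.num * x.denom ^ 2 -
      x.num ^ 2 * x.denom * derivative x.denom) * t
  rw [z, map_zero] at a
  exact (mul_eq_zero.1 a).resolve_right (pow_ne_zero 2 h0)

lemma del_eq {x : RatFunc k} {p : k[X]} (h1 : derivative x.num = x.denom * p)
    (h2 : derivative x.denom = 0) : del x = algebraMap k[X] (RatFunc k) p := by
  have hd : algebraMap k[X] (RatFunc k) x.denom ≠ 0 := RatFunc.algebraMap_ne_zero x.denom_ne_zero
  rw [del, div_eq_iff (pow_ne_zero 2 hd), h1, h2, ← map_pow, ← map_mul]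
  congr 1
  ring

lemma del_shift (v : k) (τ : RatFunc k →+* RatFunc k)
    (hτ : ∀ a, τ (algebraMap k[X] (RatFunc k) a) = algebraMap k[X] (RatFunc k) (a.comp (X + C v)))
    (x : RatFunc k) : del (τ x) = τ (del x) := by
  have h := congrArg τ (mul_den x)
  rw [map_mul, hτ, hτ] at h
  have h0 : algebraMap k[X] (RatFunc k) (x.denom.comp (X + C v)) ≠ 0 := by
    rw [← hτ]
    exact (map_ne_zero τ).2 (RatFunc.algebraMap_ne_zero x.denom_ne_zero)
  apply mul_right_cancel₀ (pow_ne_zero 2 h0)
  have b := congrArg τ (del_spec (mul_den x))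
  rw [map_mul, map_pow, hτ, hτ] at b
  rw [del_spec h, b]
  congr 1
  simp [derivative_comp]

lemma sq_of_der [CharP k 2] [PerfectField k] {a : k[X]} (h : derivative a = 0) :
    ∃ b : k[X], a = b ^ 2 := by
  have : PerfectRing k 2 := PerfectField.toPerfectRing 2
  refine ⟨(contract 2 a).map (frobeniusEquiv k 2).symm, ?_⟩
  rw [← map_frobenius_expand, ← map_expand, Polynomial.map_map, expand_contract 2 h two_ne_zero]
  have : (frobenius k 2).comp ((frobeniusEquiv k 2).symm : k →+* k) = RingHom.id k := by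
    ext z
    exact frobenius_apply_frobeniusEquiv_symm k 2 z
  rw [this, Polynomial.map_id]

/-- the differential as a homomorphism to polynomials of degree `< D` with kernel `π G` -/
theorem exists_p [CharP k 2] [PerfectField k] {f : k[X]} {D : ℕ} (hD : 0 < D)
    (hf : f.natDegree ≤ 2 * D + 1) :
    ∃ p : G (algebraMap k[X] (RatFunc k) f) →+ k[X], (∀ P, (p P).natDegree < D) ∧
      (∀ P, p P = 0 ↔ ∃ Q, P = piH _ Q) ∧
      ∀ (v : k) (τ : RatFunc k →+* RatFunc k), (∀ a, τ (algebraMap k[X] (RatFunc k) a) =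
        algebraMap k[X] (RatFunc k) (a.comp (X + C v))) →
      ∀ γ : G (algebraMap k[X] (RatFunc k) f) →+ G (algebraMap k[X] (RatFunc k) f),
        (∀ x y h, ∃ y' h', γ (pt _ x y h) = pt _ (τ x) y' h') →
        ∀ P, p (γ P) = (p P).comp (X + C v) := by
  have inj := RatFunc.algebraMap_injective k
  have t : (2 : k[X]) = 0 := CharTwo.two_eq_zero
  have t' : (2 : RatFunc k) = 0 := two0
  have hex : ∀ P : G (algebraMap k[X] (RatFunc k) f), ∃ q : k[X], q.natDegree < D ∧
      (P = 0 → q = 0) ∧ ∀ x y h, P = pt _ x y h → derivative x.num = x.denom * q ∧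
        derivative x.denom = 0 := by
    intro P
    rcases pt_cases P with rfl | ⟨x, y, h, rfl⟩
    · exact ⟨0, by simpa using hD, fun _ => rfl, fun x y h e => absurd e.symm (pt_ne_zero h)⟩
    · obtain ⟨q, h1, h2⟩ := diff hD hf h
      refine ⟨q, h1, fun e => absurd e (pt_ne_zero h), fun x' y' h' e => ?_⟩
      obtain ⟨rfl, rfl⟩ := pt_inj.1 e
      exact h2
  choose p p1 p2 p3 using hex
  have z : p 0 = 0 := p2 0 rfl
  have s : ∀ x y h, algebraMap k[X] (RatFunc k) (p (pt _ x y h)) = del x := fun x y h =>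
    (del_eq (p3 _ x y h rfl).1 (p3 _ x y h rfl).2).symm
  have add : ∀ P Q, p (P + Q) = p P + p Q := by
    intro P Q
    rcases pt_cases P with rfl | ⟨x, y, h, rfl⟩
    · rw [zero_add, z, zero_add]
    rcases pt_cases Q with rfl | ⟨x', y', h', rfl⟩
    · rw [add_zero, z, add_zero]
    apply inj
    rw [map_add, s, s]
    by_cases hx : x = x'
    · subst hx
      have r : del x + del x = 0 := by linear_combination del x * t'
      rcases pt_same_x h h' with e | e
      · obtain ⟨h₃, e₃⟩ := dbl_pt h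
        rw [e, e₃, s, r, show x ^ 4 = (x ^ 2) ^ 2 by ring, del_sq]
      · rw [e, add_neg_cancel, z, map_zero, r]
    · have hne : x + x' ≠ 0 := fun e => hx (by linear_combination e - x' * t')
      obtain ⟨h₃, e₃⟩ := add_pt h h' hx (div_mul_cancel₀ (y + y') hne)
      rw [e₃, s, del_add, del_add, del_sq, zero_add]
  refine ⟨AddMonoidHom.mk' p add, p1, fun P => ?_, fun v τ hτ γ hγ P => ?_⟩
  · simp only [AddMonoidHom.mk'_apply]
    constructor
    · intro e
      rcases pt_cases P with rfl | ⟨x, y, h, rfl⟩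
      · exact ⟨0, (map_zero _).symm⟩
      obtain ⟨q1, q2⟩ := p3 _ x y h rfl
      rw [e, mul_zero] at q1
      obtain ⟨a, ha⟩ := sq_of_der q1
      obtain ⟨b, hb⟩ := sq_of_der q2
      have hx : (algebraMap k[X] (RatFunc k) a / algebraMap k[X] (RatFunc k) b) ^ 2 = x := by
        rw [div_pow, ← map_pow, ← map_pow, ← ha, ← hb, RatFunc.num_div_denom]
      generalize algebraMap k[X] (RatFunc k) a / algebraMap k[X] (RatFunc k) b = ξ at hx
      subst hx
      have hq : (y + ξ ^ 3) ^ 2 + (y + ξ ^ 3) = ξ ^ 3 + algebraMap k[X] (RatFunc k) f := by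
        linear_combination h + (y * ξ ^ 3 + ξ ^ 6) * t'
      obtain ⟨h₃, e₃⟩ := piH_pt hq
      refine ⟨pt _ ξ _ hq, ?_⟩
      rw [e₃]
      refine pt_inj.2 ⟨rfl, ?_⟩
      linear_combination -h +
        (y - y * ξ ^ 3 - ξ ^ 6 - algebraMap k[X] (RatFunc k) f) * t'
    · rintro ⟨Q, rfl⟩
      rcases pt_cases Q with rfl | ⟨x, y, h, rfl⟩
      · rw [map_zero, z]
      · obtain ⟨h₃, e₃⟩ := piH_pt h
        apply inj
        rw [e₃, s, del_sq, map_zero]
  · simp only [AddMonoidHom.mk'_apply]
    rcases pt_cases P with rfl | ⟨x, y, h, rfl⟩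
    · rw [map_zero, z, zero_comp]
    · obtain ⟨y', h', e⟩ := hγ x y h
      apply inj
      rw [e, s, ← hτ, s, del_shift v τ hτ]

end Pool.Agent.MP_070445_nt.W71.DC

namespace Pool.Agent.MP_070445_nt.W71

theorem diff : DIFF := by
  intro k _ _ _ f D hD hf
  obtain ⟨p, h1, h2, h3⟩ := DC.exists_p (k := k) (f := f) (D := D) hD hf
  refine ⟨p, fun P => (h2 P).trans ⟨fun ⟨Q, e⟩ => ⟨Q, e.symm⟩, fun ⟨Q, e⟩ => ⟨Q, e.symm⟩⟩, h1, ?_⟩
  rintro v φ ⟨τ, d, hτ, -, hφ⟩ P
  exact h3 v τ hτ φ (fun x y h => ⟨_, hφ x y h⟩) P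

end Pool.Agent.MP_070445_nt.W71
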