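import Pool.Agent.MP_070445_nt.W71.Defs

namespace Pool.Agent.MP_070445_nt.W71

open Polynomial

namespace FILTx

variable {k : Type} [Field k] [CharP k 2]

theorem comm {f : k[X]} {v : k} {φ : G (io k f) →+ G (io k f)} (hφ : IsTr f v φ)
    (P : G (io k f)) : φ (piH (io k f) P) = piH (io k f) (φ P) := by
  obtain ⟨τ, d, -, h2, h3⟩ := hφ
  rcases pt_cases P with rfl | ⟨x, y, h, rfl⟩
  · simp
  · obtain ⟨h₁, e₁⟩ := piH_pt h
    obtain ⟨h₂, e₂⟩ := h3 _ _ h₁
    obtain ⟨h₃, e₃⟩ := h3 _ _ h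
    obtain ⟨h₄, e₄⟩ := piH_pt h₃
    rw [e₁, e₂, e₃, e₄]
    refine pt_inj.2 ⟨map_pow _ _ _, ?_⟩
    rw [map_add, map_pow]
    linear_combination -h2 + (d - τ y * d - io k f) * (two0 (K := RatFunc k))

theorem commN {f : k[X]} {v : k} {φ : G (io k f) →+ G (io k f)} (hφ : IsTr f v φ) (a : ℕ)
    (P : G (io k f)) : φ (piN (io k f) a P) = piN (io k f) a (φ P) := by
  induction a with
  | zero => rfl
  | succ a ih => rw [piN_succ, piN_succ, comm hφ, ih]

end FILTx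

theorem filt : FILT := by
  intro k _ _ f D δ V M hδ hV i
  induction i using Nat.strong_induction_on with
  | _ i ih =>
    intro P hP
    rw [mem_PP_succ]
    intro v hv
    obtain ⟨φ, hφ, hM⟩ := hV v hv
    obtain ⟨Q, hQ, e⟩ := hM _ hP
    rw [← hδ.2.2 v φ hφ P, ← map_add]
    have e2 : piN (io k f) i (φ P + P) = piH (io k f) (piH (io k f) (-Q)) := by
      rw [map_add, ← FILTx.commN hφ, e, piH_piH, smul_neg, neg_neg]
    rcases i with _ | _ | i
    · exact (mem_PP_zero V _).2 ((hδ.1 _).2 ⟨_, e2.symm⟩)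
    · exact (mem_PP_zero V _).2 ((hδ.1 _).2 ⟨_, (piH_inj _ e2).symm⟩)
    · have e3 : piN (io k f) i (φ P + P) = -Q := piH_inj _ (piH_inj _ e2)
      have := ih i (by omega) (φ P + P) (e3 ▸ M.neg_mem hQ)
      rwa [show (i + 1 + 1) / 2 = i / 2 + 1 by omega]

end Pool.Agent.MP_070445_nt.W71
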