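import Pool.Agent.MP_070445_nt.W71.Defs

namespace Pool.Agent.MP_070445_nt.W71

open Polynomial

namespace IDXx

theorem comm {K : Type} [Field K] [CharP K 2] (g : K) (c : ℕ) (Q : G g) :
    piN g c (piH g Q) = piN g (c + 1) Q := by
  induction c with
  | zero => rfl
  | succ c h => rw [piN_succ, h, ← piN_succ]

end IDXx

theorem idx : IDX := by
  intro k _ _ f D n a j δ V M hδ hD hV hC
  obtain ⟨κ1, h1⟩ := hC
  have hfin : Finite V := Nat.finite_of_card_ne_zero (by omega)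
  have := Fintype.ofFinite V
  induction a with
  | zero => exact fun _ => ⟨fun _ => ⟨0, by simp⟩, fun x _ y _ _ => ⟨x - y, rfl⟩⟩
  | succ a ih =>
    intro h
    obtain ⟨κ, hκ⟩ := ih fun i hi => h i (by omega)
    have e1 : ∀ c : Fin (n ^ a), ∃ r ∈ M, ∀ x ∈ M, κ x = c → κ r = c := fun c => by
      by_cases hc : ∃ x ∈ M, κ x = c
      · obtain ⟨x, hx, e⟩ := hc
        exact ⟨x, hx, fun _ _ _ => e⟩
      · exact ⟨0, M.zero_mem, fun x hx e => absurd ⟨x, hx, e⟩ hc⟩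
    choose r r1 r2 using e1
    have e2 : ∀ x, ∃ Q, x ∈ M → piN (io k f) a Q = x - r (κ x) := fun x => by
      by_cases hx : x ∈ M
      · obtain ⟨Q, e⟩ := hκ x hx _ (r1 (κ x)) (r2 _ x hx rfl).symm
        exact ⟨Q, fun _ => e⟩
      · exact ⟨0, fun h' => absurd h' hx⟩
    choose ψ hψ using e2
    have e3 : ∀ x ∈ M, δ (ψ x) ∈ PP V j := fun x hx => h a (by omega) _ (by
      rw [hψ x hx]
      exact M.sub_mem hx (r1 _))
    refine ⟨fun x => Fin.cast (pow_succ n a).symm (finProdFinEquiv (κ x, κ1 (δ (ψ x)))),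
      fun x hx y hy e => ?_⟩
    obtain ⟨c1, c2⟩ := Prod.mk.inj (finProdFinEquiv.injective (Fin.cast_injective _ e))
    have c3 := h1 _ (e3 x hx) _ (e3 y hy) c2
    rw [← map_sub, mem_van] at c3
    have c4 : δ (ψ x - ψ y) = 0 := eq_zero_of_natDegree_lt_card_of_eval_eq_zero _
      (f := fun v : V => (v : k)) Subtype.val_injective (fun v => c3 v v.2)
      (by rw [← Nat.card_eq_fintype_card, hV]; exact hδ.2.1 _)
    obtain ⟨Q, hQ⟩ := (hδ.1 _).1 c4
    refine ⟨Q, ?_⟩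
    rw [← IDXx.comm, hQ, map_sub, hψ x hx, hψ y hy, c1]
    abel

end Pool.Agent.MP_070445_nt.W71
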