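import Pool.Agent.MP_070445_nt.W71.Defs

namespace Pool.Agent.MP_070445_nt.W71

theorem num0 : NUM0 := by
  intro lam hl r
  have h0 : 0 < lam := by linarith
  induction r with
  | zero =>
    intro j
    have h1 : 1 ≤ lam ^ j := one_le_pow₀ hl
    cases j with
    | zero => simp [Rn]
    | succ j => simpa [Rn] using h1
  | succ r ih =>
    intro j
    cases j with
    | zero =>
      simp only [Rn, Nat.cast_zero]
      positivity
    | succ j =>
      have e : lam ^ (j + 1) * (1 + 1 / lam) ^ (r + 1) =
          lam ^ (j + 1) * (1 + 1 / lam) ^ r + lam ^ j * (1 + 1 / lam) ^ r := by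
        rw [pow_succ (1 + 1 / lam), pow_succ lam]
        generalize (1 + 1 / lam) ^ r = B
        field_simp
      rw [e, Rn]
      push_cast
      exact add_le_add (ih (j + 1)) (ih j)

end Pool.Agent.MP_070445_nt.W71
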