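import Pool.Agent.MP_070445_nt.W71.Defs

namespace Pool.Agent.MP_070445_nt.W71

theorem num1 (h1 : NUM0) : NUM1 := by
  intro η hη
  refine ⟨⌈768 * Real.exp (2 * η) / η ^ 6⌉₊, fun r hr a ha => ?_⟩
  have hr0 : (0 : ℝ) ≤ r := Nat.cast_nonneg r
  have hr1 : 768 * Real.exp (2 * η) ≤ r * η ^ 6 := by
    have := (Nat.ceil_le.1 hr)
    rwa [div_le_iff₀ (by positivity)] at this
  have har : (a : ℝ) ≤ r := ha.trans (by nlinarith)
  have hl : 1 ≤ Real.exp (2 * η) := Real.one_le_exp (by positivity)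
  have h2 := h1 _ hl r (a / 2 + 1)
  have h3 : 1 + 1 / Real.exp (2 * η) ≤ 2 * Real.exp (-η + η ^ 2 / 2) := by
    have c := Real.cosh_le_exp_half_sq η
    rw [Real.cosh_eq] at c
    have e1 : 1 + 1 / Real.exp (2 * η) = Real.exp (-η) * (Real.exp η + Real.exp (-η)) := by
      rw [mul_add, ← Real.exp_add, ← Real.exp_add, one_div, ← Real.exp_neg]
      congr 1
      · simp
      · congr 1
        ring
    rw [e1, Real.exp_add]
    have := Real.exp_pos (-η)
    nlinarith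
  have h4 : Real.exp (2 * η) ^ (a / 2 + 1) ≤ Real.exp (2 * η + η * ((1 - η) * r)) := by
    rw [← Real.exp_nat_mul]
    refine Real.exp_le_exp.2 ?_
    have : ((a / 2 : ℕ) : ℝ) ≤ a / 2 := Nat.cast_div_le
    push_cast
    nlinarith
  have h5 : (1 + 1 / Real.exp (2 * η)) ^ r ≤ 2 ^ r * Real.exp (r * (-η + η ^ 2 / 2)) := by
    rw [Real.exp_nat_mul, ← mul_pow]
    exact pow_le_pow_left₀ (by positivity) h3 r
  have h6 : (Rn r (a / 2 + 1) : ℝ) ≤
      2 ^ r * (Real.exp (2 * η) / Real.exp (r * η ^ 2 / 2)) := by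
    refine h2.trans ((mul_le_mul h4 h5 (by positivity) (by positivity)).trans (le_of_eq ?_))
    rw [mul_left_comm, ← Real.exp_add, ← Real.exp_sub]
    congr 2
    ring
  have h7 : (r * η ^ 2 / 2) ^ 3 / (Nat.factorial 3 : ℝ) ≤ Real.exp (r * η ^ 2 / 2) :=
    Real.pow_div_factorial_le_exp _ (by positivity) 3
  have h8 : 16 * (r : ℝ) ^ 2 * Real.exp (2 * η) ≤ Real.exp (r * η ^ 2 / 2) := by
    refine le_trans ?_ h7
    have e : (r * η ^ 2 / 2) ^ 3 / (Nat.factorial 3 : ℝ) = (r : ℝ) ^ 2 * (r * η ^ 6) / 48 := by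
      simp only [Nat.factorial]
      push_cast
      ring
    rw [e]
    nlinarith [mul_le_mul_of_nonneg_left hr1 (sq_nonneg (r : ℝ))]
  have h9 : 16 * (r : ℝ) ^ 2 * (Real.exp (2 * η) / Real.exp (r * η ^ 2 / 2)) ≤ 1 := by
    rw [← mul_div_assoc, div_le_one (Real.exp_pos _)]
    exact h8
  have h10 : (16 * (r * (a * Rn r (a / 2 + 1))) : ℝ) ≤ 2 ^ r := by
    calc (16 * (r * (a * Rn r (a / 2 + 1))) : ℝ)
        ≤ 16 * (r * (r * (2 ^ r * (Real.exp (2 * η) / Real.exp (r * η ^ 2 / 2))))) := by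
          gcongr
      _ = 2 ^ r * (16 * (r : ℝ) ^ 2 * (Real.exp (2 * η) / Real.exp (r * η ^ 2 / 2))) := by ring
      _ ≤ 2 ^ r * 1 := by gcongr
      _ = 2 ^ r := mul_one _
  exact_mod_cast h10

end Pool.Agent.MP_070445_nt.W71
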