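import Pool.Agent.MP_070445_nt.W71.Defs

namespace Pool.Agent.MP_070445_nt.W71

namespace NUM2x

theorem sq_le (t : ℕ) (ht : 4 ≤ t) : t * t ≤ 2 ^ t := by
  induction t, ht using Nat.le_induction with
  | base => norm_num
  | succ t ht ih => rw [pow_succ]; nlinarith

theorem lin_le (r : ℕ) (hr : 6 ≤ r) : 4 * r + 24 ≤ 2 ^ r := by
  induction r, hr using Nat.le_induction with
  | base => norm_num
  | succ t ht ih => rw [pow_succ]; omega

theorem big (r P n R : ℕ) (hr : 10 ≤ r) (hP : P ≤ 4 * r + 4) (hn : n ≤ 2 ^ P)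
    (h : 2 ^ 2 ^ (r - 3) ≤ 2 * (n + R + (n + R)) ^ 2 + 1) : 2 ^ (2 * 2 ^ (r - 6)) ≤ R := by
  obtain ⟨s, rfl⟩ : ∃ s, r = s + 6 := ⟨r - 6, by omega⟩
  have e1 : s + 6 - 3 = s + 3 := by omega
  have e2 : s + 6 - 6 = s := by omega
  rw [e1] at h
  rw [e2]
  have h1 := lin_le (s + 2) (by omega)
  obtain ⟨Q, hQ⟩ : ∃ Q, 2 ^ s = Q := ⟨_, rfl⟩
  have e3 : 2 ^ (s + 3) = 8 * Q := by rw [pow_add, hQ]; omega
  have e4 : 2 ^ (s + 2) = 4 * Q := by rw [pow_add, hQ]; omega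
  rw [e3] at h
  rw [e4] at h1
  rw [hQ]
  by_contra hlt
  push Not at hlt
  obtain ⟨W, hW⟩ : ∃ W, 4 * Q = W + 4 := ⟨4 * Q - 4, by omega⟩
  have h2 : n ≤ 2 ^ W := hn.trans (Nat.pow_le_pow_right (by norm_num) (by omega))
  have h3 : R ≤ 2 ^ W := hlt.le.trans (Nat.pow_le_pow_right (by norm_num) (by omega))
  have e5 : 2 ^ (8 * Q) = 256 * (2 ^ W) ^ 2 := by
    have : 8 * Q = 8 + W * 2 := by omega
    rw [this, pow_add, pow_mul]; norm_num
  have h4 : (n + R + (n + R)) ^ 2 ≤ (4 * 2 ^ W) ^ 2 := Nat.pow_le_pow_left (by omega) 2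
  have h5 : 0 < (2 ^ W) ^ 2 := by positivity
  rw [mul_pow] at h4
  omega

end NUM2x

theorem num2 (h1 : NUM1) : NUM2 := by
  intro ε hε n₀
  obtain ⟨η, hη0, hηε, hη4⟩ : ∃ η : ℝ, 0 < η ∧ η ≤ ε ∧ η ≤ 1 / 4 :=
    ⟨min ε (1 / 4), lt_min hε (by norm_num), min_le_left _ _, min_le_right _ _⟩
  obtain ⟨r₀, hr₀⟩ := h1 η hη0
  obtain ⟨t₁, ht₁⟩ := exists_nat_ge (20 / η)
  obtain ⟨t, h10, ht0, htn, htt⟩ : ∃ t : ℕ, 10 ≤ t ∧ r₀ ≤ t ∧ n₀ ≤ t ∧ t₁ ≤ t :=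
    ⟨10 + r₀ + n₀ + t₁, by omega, by omega, by omega, by omega⟩
  obtain ⟨r, hr⟩ : ∃ r, 2 ^ t = r := ⟨_, rfl⟩
  have htr : t < r := hr ▸ Nat.lt_two_pow_self
  have hsq : t * t ≤ r := hr ▸ NUM2x.sq_le t (by omega)
  have hr0 : (0 : ℝ) ≤ r := Nat.cast_nonneg r
  have hpos : 0 ≤ (1 - η) * (r : ℝ) := mul_nonneg (by linarith) hr0
  obtain ⟨a, ha1, ha2⟩ : ∃ a : ℕ, (a : ℝ) ≤ (1 - η) * r ∧ (1 - η) * (r : ℝ) < a + 1 :=
    ⟨_, Nat.floor_le hpos, Nat.lt_floor_add_one _⟩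
  have har : a ≤ r := by
    have : (a : ℝ) ≤ r := by nlinarith
    exact_mod_cast this
  obtain ⟨K, hK⟩ : ∃ K, K + 1 + a = 2 * r + t + 3 := ⟨2 * r + t + 2 - a, by omega⟩
  refine ⟨r, a, K + 1, by omega, by omega, by omega, hr₀ r (by omega) a ha1, ?_, ?_⟩
  · have e1 : 2 * r * 4 ^ r = 2 ^ (2 * r + t + 1) := by
      rw [pow_succ, pow_add, hr, pow_mul]; ring
    have e2 : 2 ^ K * 2 ^ a = 2 ^ (2 * r + t + 2) := by
      rw [← pow_add]; congr 1; omega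
    have h2 : 2 ^ K ≤ 2 ^ (K + 1) - 1 := by
      have : 0 < 2 ^ K := by positivity
      rw [pow_succ]; omega
    have h3 : 2 ^ (2 * r + t + 1) < 2 ^ (2 * r + t + 2) :=
      Nat.pow_lt_pow_right (by norm_num) (by omega)
    calc _ = _ := e1
      _ < _ := h3
      _ = _ := e2.symm
      _ ≤ _ := Nat.mul_le_mul_right _ h2
  · intro n R hn hR
    have hn2 : n ≤ 2 ^ (K + 1 + r + 1) := by
      have : 0 < 2 ^ (K + 1 + r) := by positivity
      rw [pow_succ]; omega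
    have hbig := NUM2x.big r _ n R (by omega) (by omega) hn2 hR
    have hexp : ((K + 1 + r + 1 : ℕ) : ℝ) * (1 / 2 - η) ≤ ((r - 6 : ℕ) : ℝ) := by
      rw [Nat.cast_sub (by omega)]
      have e1 : (K : ℝ) + 1 + a = 2 * r + t + 3 := by exact_mod_cast hK
      have e2 : (t : ℝ) * t ≤ r := by exact_mod_cast hsq
      have e3 : (10 : ℝ) ≤ t := by exact_mod_cast h10
      have e4 : 20 ≤ η * t := by
        have : (t₁ : ℝ) ≤ t := by exact_mod_cast htt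
        have h := ht₁.trans this
        rw [div_le_iff₀ hη0] at h
        linarith
      have e5 : 20 * (t : ℝ) ≤ η * r := by nlinarith
      have e6 : (K : ℝ) + 1 + r + 1 ≤ (2 + η) * r + t + 5 := by nlinarith
      have e7 : ((K : ℝ) + 1 + r + 1) * (1 / 2 - η) ≤ ((2 + η) * r + t + 5) * (1 / 2 - η) :=
        mul_le_mul_of_nonneg_right e6 (by linarith)
      have e8 : 0 ≤ η * η * r := by positivity
      push_cast
      nlinarith
    have hE : (n : ℝ) ^ (1 / 2 - ε) ≤ (2 : ℝ) ^ (r - 6) := by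
      have h2 : (1 : ℝ) ≤ 2 ^ (r - 6) := one_le_pow₀ (by norm_num)
      rcases Nat.eq_zero_or_pos n with h0 | h0
      · rw [h0, Nat.cast_zero]
        exact (Real.zero_rpow_le_one _).trans h2
      · have h3 : (1 : ℝ) ≤ n := by exact_mod_cast h0
        have h4 : (n : ℝ) ≤ (2 : ℝ) ^ (K + 1 + r + 1) := by exact_mod_cast hn2
        calc (n : ℝ) ^ (1 / 2 - ε) ≤ (n : ℝ) ^ (1 / 2 - η) :=
              Real.rpow_le_rpow_of_exponent_le h3 (by linarith)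
          _ ≤ ((2 : ℝ) ^ (K + 1 + r + 1)) ^ (1 / 2 - η) :=
              Real.rpow_le_rpow (by linarith) h4 (by linarith)
          _ = (2 : ℝ) ^ (((K + 1 + r + 1 : ℕ) : ℝ) * (1 / 2 - η)) := by
              rw [Real.rpow_mul (by norm_num), Real.rpow_natCast]
          _ ≤ (2 : ℝ) ^ (((r - 6 : ℕ) : ℝ)) :=
              Real.rpow_le_rpow_of_exponent_le (by norm_num) hexp
          _ = _ := Real.rpow_natCast _ _
    have he : Real.exp 1 ≤ 4 := by linarith [Real.exp_one_lt_d9]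
    calc Real.exp ((n : ℝ) ^ (1 / 2 - ε)) ≤ Real.exp (((2 ^ (r - 6) : ℕ) : ℝ)) :=
          Real.exp_le_exp.2 (by exact_mod_cast hE)
      _ = Real.exp 1 ^ (2 ^ (r - 6)) := by rw [← Real.exp_nat_mul, mul_one]
      _ ≤ (4 : ℝ) ^ (2 ^ (r - 6)) := pow_le_pow_left₀ (Real.exp_pos 1).le he _
      _ = ((2 ^ (2 * 2 ^ (r - 6)) : ℕ) : ℝ) := by rw [pow_mul]; norm_num
      _ ≤ R := by exact_mod_cast hbig

end Pool.Agent.MP_070445_nt.W71
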