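import Pool.Agent.MP_070445_nt.W71.Defs

namespace Pool.Agent.MP_070445_nt.W71

theorem pig : PIG := by
  classical
  intro A B ι _ _ _ φ ψ M H T N q hφ hc hψ hT hlt
  obtain ⟨κ, hκ⟩ := hc
  have hm : ∀ s : Finset ι, ∑ i ∈ s, ψ i ∈ T := fun s =>
    hT _ (by rw [Finset.smul_sum]; exact Finset.sum_eq_zero fun i _ => hψ i)
  have hM : ∀ s : Finset ι, ∑ i ∈ s, φ i ∈ M := fun s => sum_mem fun i _ => hφ i
  obtain ⟨s, s', hne, he⟩ := Fintype.exists_ne_map_eq_of_card_lt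
    (fun s : Finset ι => ((⟨∑ i ∈ s, ψ i, hm s⟩, κ (∑ i ∈ s, φ i)) : T × Fin q))
    (by simpa using hlt)
  obtain ⟨e1, e2⟩ := Prod.mk.inj he
  refine ⟨fun i => (if i ∈ s then 1 else 0) - (if i ∈ s' then 1 else 0), fun h => hne ?_,
    fun i => ?_, ?_, ?_⟩
  · ext i
    have := congrFun h i
    by_cases a : i ∈ s <;> by_cases b : i ∈ s' <;> simp_all
  · by_cases a : i ∈ s <;> by_cases b : i ∈ s' <;> simp [a, b]
  · simpa [sub_smul, Finset.sum_sub_distrib, ite_smul] using hκ _ (hM s) _ (hM s') e2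
  · simpa [sub_smul, Finset.sum_sub_distrib, ite_smul, sub_eq_zero] using congrArg Subtype.val e1

end Pool.Agent.MP_070445_nt.W71
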