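import Pool.Agent.MP_070445_nt.W71.Defs

namespace Pool.Agent.MP_070445_nt.W71

theorem pmono : PMONO := by
  intro k _ V i j hij
  have h1 : ∀ i, PP V i ≤ PP V (i + 1) := by
    intro i
    induction i with
    | zero => exact bot_le
    | succ i ih =>
      intro p hp
      rw [mem_PP_succ] at hp ⊢
      exact fun v hv => ih (hp v hv)
  exact monotone_nat_of_le_succ h1 hij

theorem gen1 (h1 : DIFF) (h2 : RM) (h3 : FILT) (h4 : IDX) (h5 : PMONO) (h6 : CHA) : GEN1 := by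
  intro k _ _ _ r a D
  have p1 : 1 ≤ 2 ^ r := Nat.one_le_two_pow
  obtain ⟨δ, hδ⟩ := h1 k D.f (2 ^ r) p1 D.degf
  obtain ⟨c, hc⟩ : D.S.Nonempty := Finset.card_pos.1 (by have := D.lo; omega)
  have hM : ∀ v ∈ D.V, ∃ φ, IsTr D.f v φ ∧ ∀ P ∈ D.M, ∃ Q ∈ D.M, φ P + P = 2 • Q := by
    intro v hv
    obtain ⟨φ, t1, -, t3, -⟩ := h6 k r D v hv ⟨c, hc⟩
    refine ⟨φ, t1, fun P hP => ?_⟩
    induction hP using AddSubgroup.closure_induction with
    | mem x hx =>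
      obtain ⟨e, rfl⟩ := hx
      rcases t3 e with h | h
      · exact ⟨_, AddSubgroup.subset_closure ⟨e, rfl⟩, by rw [h, two_nsmul]⟩
      · exact ⟨0, zero_mem _, by rw [h]; simp⟩
    | zero => exact ⟨0, zero_mem _, by simp⟩
    | add x y _ _ ix iy =>
      obtain ⟨Q, q1, q2⟩ := ix
      obtain ⟨Q', q3, q4⟩ := iy
      exact ⟨Q + Q', add_mem q1 q3, by rw [map_add, nsmul_add, ← q2, ← q4]; abel⟩
    | neg x _ ix =>
      obtain ⟨Q, q1, q2⟩ := ix
      exact ⟨-Q, neg_mem q1, by rw [map_neg, neg_nsmul, ← q2]; abel⟩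
  have := h4 k D.f (2 ^ r) _ a (a / 2 + 1) δ D.V D.M hδ p1 D.cardV (h2 k r (a / 2 + 1) D.V D.cardV)
    fun i hi P hP => h5 k D.V (i / 2 + 1) (a / 2 + 1) (by omega) (h3 k D.f _ δ D.V D.M hδ hM i P hP)
  rwa [← pow_mul, mul_comm] at this

end Pool.Agent.MP_070445_nt.W71
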