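import Pool.Agent.MP_070445_nt.W71.Defs

/-! Reduction of points of `y² + y = x³ + g` at a place. -/

namespace Pool.Agent.MP_070445_nt.W71

namespace REDx

variable {K F : Type*} [Field K] [Field F]

/-- The axioms of the value relation of a place. -/
structure Place (V : K → F → Prop) : Prop where
  add : ∀ {x y a b}, V x a → V y b → V (x + y) (a + b)
  mul : ∀ {x y a b}, V x a → V y b → V (x * y) (a * b)
  one : V 1 1
  inv : ∀ {x a}, V x a → a ≠ 0 → V x⁻¹ a⁻¹
  uniq : ∀ {x a b}, V x a → V x b → a = b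
  dich : ∀ x, (∃ a, V x a) ∨ V x⁻¹ 0

variable [CharP K 2] [CharP F 2] {V : K → F → Prop}

/-- `P` is the reduction of `ψ`. -/
def Sp (V : K → F → Prop) {g : K} {g' : F} (ψ : G g) (P : G g') : Prop :=
  (∃ x y h a b h', ψ = pt g x y h ∧ P = pt g' a b h' ∧ V x a ∧ V y b) ∨
    (P = 0 ∧ (ψ = 0 ∨ ∃ x y h, ψ = pt g x y h ∧ x ≠ 0 ∧ V x⁻¹ 0))

omit [CharP K 2] [CharP F 2] in
theorem Place.cg (_ : Place V) {x y : K} {a b : F} (h : V x a) (e : x = y) (e' : a = b) : V y b :=
  e ▸ e' ▸ h

theorem Place.zero (p : Place V) : V 0 0 :=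
  p.cg (p.add p.one p.one) (by linear_combination (two0 (K := K)))
    (by linear_combination (two0 (K := F)))

omit [CharP K 2] [CharP F 2] in
theorem Place.pow (p : Place V) {x : K} {a : F} (h : V x a) (n : ℕ) : V (x ^ n) (a ^ n) := by
  induction n with
  | zero => simpa using p.one
  | succ n ih => rw [pow_succ, pow_succ]; exact p.mul ih h

theorem Place.ne (p : Place V) {x : K} {a : F} (h : V x a) (ha : a ≠ 0) : x ≠ 0 := by
  rintro rfl
  exact ha (p.uniq h p.zero)

theorem red (p : Place V) {g : K} {g' : F} (hg : V g g') {ψ : G g} {P : G g'} (hs : Sp V ψ P)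
    {u w : K} {c d : F} (hφ : w ^ 2 + w = u ^ 3 + g) (hφ' : d ^ 2 + d = c ^ 3 + g')
    (hu : V u c) (hw : V w d) : Sp V (ψ + pt g u w hφ) (P + pt g' c d hφ') := by
  have k2 := two0 (K := K)
  have f2 := two0 (K := F)
  rcases hs with ⟨x, y, h, a, b, h', rfl, rfl, hx, hy⟩ | ⟨rfl, rfl | ⟨x, y, h, rfl, hx0, hx⟩⟩
  · by_cases hac : a = c
    · subst hac
      rcases same_x hφ' h' with rfl | rfl
      · -- doubling downstairs
        obtain ⟨k', e'⟩ := dbl_pt h'
        by_cases hxu : x = u
        · subst hxu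
          rcases same_x hφ h with rfl | rfl
          · obtain ⟨k, e⟩ := dbl_pt h
            exact Or.inl ⟨_, _, k, _, _, k', e, e', p.pow hx 4,
              p.add (p.add (p.add (p.pow hx 6) (p.pow hx 3)) hy) p.one⟩
          · have := p.uniq hy (p.add hw p.one)
            exact absurd (by linear_combination -this) (one_ne_zero (α := F))
        · have hv : V (y + w + 1) 1 :=
            p.cg (p.add (p.add hy hw) p.one) rfl (by linear_combination b * f2)
          have hne := p.ne hv one_ne_zero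
          have hl : (x ^ 2 + x * u + u ^ 2) * (y + w + 1)⁻¹ * (x + u) = y + w := by
            rw [mul_right_comm, mul_inv_eq_iff_eq_mul₀ hne]
            linear_combination -h - hφ + (x ^ 2 * u + x * u ^ 2 - y * w - g) * k2
          have hvl : V ((x ^ 2 + x * u + u ^ 2) * (y + w + 1)⁻¹) (a ^ 2) :=
            p.cg (p.mul (p.add (p.add (p.pow hx 2) (p.mul hx hu)) (p.pow hu 2))
              (p.inv hv one_ne_zero)) rfl (by rw [inv_one]; linear_combination a ^ 2 * f2)
          obtain ⟨k, e⟩ := add_pt h hφ hxu hl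
          refine Or.inl ⟨_, _, k, _, _, k', e, e', ?_, ?_⟩
          · exact p.cg (p.add (p.add (p.pow hvl 2) hx) hu) rfl (by linear_combination a * f2)
          · exact p.cg (p.add (p.add (p.mul hvl (p.add (p.pow hvl 2) hu)) hy) p.one) rfl (by ring)
      · -- opposite points downstairs
        have e' : pt g' a (d + 1) h' + pt g' a d hφ' = 0 := by
          rw [show pt g' a (d + 1) h' = -pt g' a d hφ' from (neg_pt hφ').symm, neg_add_cancel]
        refine Or.inr ⟨e', ?_⟩
        by_cases hxu : x = u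
        · subst hxu
          rcases same_x hφ h with rfl | rfl
          · have := p.uniq hy hw
            exact absurd (by linear_combination this) (one_ne_zero (α := F))
          · left
            rw [show pt g x (w + 1) h = -pt g x w hφ from (neg_pt hφ).symm, neg_add_cancel]
        · have hv : V (y + w) 1 := p.cg (p.add hy hw) rfl (by linear_combination d * f2)
          have hne := p.ne hv one_ne_zero
          have hxu' : x + u ≠ 0 := fun e => hxu (by linear_combination e - u * k2)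
          have hl : (y + w) / (x + u) * (x + u) = y + w := div_mul_cancel₀ _ hxu'
          obtain ⟨k, e⟩ := add_pt h hφ hxu hl
          have hz : V (x + u) 0 := p.cg (p.add hx hu) rfl (by linear_combination a * f2)
          have ht : V ((x + u) * (y + w)⁻¹) 0 :=
            p.cg (p.mul hz (p.inv hv one_ne_zero)) rfl (zero_mul _)
          have he : V (1 + (x + u) * ((x + u) * (y + w)⁻¹) ^ 2) 1 :=
            p.cg (p.add p.one (p.mul hz (p.pow ht 2))) rfl (by ring)
          have hx3 : (((y + w) / (x + u)) ^ 2 + x + u) * ((x + u) * (y + w)⁻¹) ^ 2 =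
              1 + (x + u) * ((x + u) * (y + w)⁻¹) ^ 2 := by
            field_simp
            ring
          have hen := p.ne he one_ne_zero
          have h30 : ((y + w) / (x + u)) ^ 2 + x + u ≠ 0 := by
            intro z
            rw [z, zero_mul] at hx3
            exact hen hx3.symm
          refine Or.inr ⟨_, _, k, e, h30, ?_⟩
          refine p.cg (p.mul (p.pow ht 2) (p.inv he one_ne_zero)) ?_ (by ring)
          rw [← hx3, mul_inv, mul_left_comm, mul_inv_cancel₀
            (pow_ne_zero 2 (mul_ne_zero hxu' (inv_ne_zero hne))), mul_one]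
    · have hxu : x ≠ u := by
        rintro rfl
        exact hac (p.uniq hx hu)
      have hac' : a + c ≠ 0 := fun e => hac (by linear_combination e - c * f2)
      have hxu' : x + u ≠ 0 := fun e => hxu (by linear_combination e - u * k2)
      have hl : (y + w) * (x + u)⁻¹ * (x + u) = y + w := inv_mul_cancel_right₀ hxu' _
      have hl' : (b + d) * (a + c)⁻¹ * (a + c) = b + d := inv_mul_cancel_right₀ hac' _
      have hvl := p.mul (p.add hy hw) (p.inv (p.add hx hu) hac')
      obtain ⟨k, e⟩ := add_pt h hφ hxu hl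
      obtain ⟨k', e'⟩ := add_pt h' hφ' hac hl'
      exact Or.inl ⟨_, _, k, _, _, k', e, e', p.add (p.add (p.pow hvl 2) hx) hu,
        p.add (p.add (p.mul hvl (p.add (p.pow hvl 2) hu)) hy) p.one⟩
  · exact Or.inl ⟨u, w, hφ, c, d, hφ', zero_add _, zero_add _, hu, hw⟩
  · obtain ⟨s, hs, hsv⟩ : ∃ s, x * s = 1 ∧ V s 0 := ⟨x⁻¹, mul_inv_cancel₀ hx0, hx⟩
    obtain ⟨m, hm⟩ : ∃ m, m = y * s ^ 2 := ⟨_, rfl⟩
    have hme : m ^ 2 + m * s ^ 2 = s + g * s ^ 4 := by
      rw [hm]
      linear_combination s ^ 4 * h + s * (x ^ 2 * s ^ 2 + x * s + 1) * hs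
    have hmv : V m 0 := by
      rcases p.dich m with ⟨z, hz⟩ | hz
      · have h1 := p.add (p.pow hz 2) (p.mul hz (p.pow hsv 2))
        have h2 := p.add hsv (p.mul hg (p.pow hsv 4))
        have h3 := p.uniq (p.cg h1 hme rfl) h2
        have : z ^ 2 = 0 := by linear_combination h3
        rwa [pow_eq_zero_iff two_ne_zero |>.mp this] at hz
      · by_cases hm0 : m = 0
        · rw [hm0]; exact p.zero
        · have h1 := p.add p.one (p.mul (p.pow hsv 2) hz)
          have h2 := p.mul (p.add hsv (p.mul hg (p.pow hsv 4))) (p.pow hz 2)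
          have e : 1 + s ^ 2 * m⁻¹ = (s + g * s ^ 4) * m⁻¹ ^ 2 := by
            rw [← hme]; field_simp
          have h3 := p.uniq (p.cg h1 e rfl) h2
          exact absurd (by linear_combination h3) (one_ne_zero (α := F))
    have hev : V (1 + s * u) 1 := p.cg (p.add p.one (p.mul hsv hu)) rfl (by ring)
    have hen := p.ne hev one_ne_zero
    obtain ⟨i, hi, hiv⟩ : ∃ i, (1 + s * u) * i = 1 ∧ V i 1 :=
      ⟨_, mul_inv_cancel₀ hen, by simpa using p.inv hev one_ne_zero⟩
    have hux : u ≠ x := by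
      rintro rfl
      exact hen (by linear_combination hs + k2)
    have hl : (y + w) * s * i * (u + x) = w + y := by
      linear_combination (y + w) * i * hs + (y + w) * hi
    obtain ⟨k, e⟩ := add_pt hφ h hux hl
    have hx3 : ((y + w) * s * i) ^ 2 + x = (m + s * u ^ 2 + s ^ 2 * (w + u ^ 3)) * i ^ 2 := by
      have a1 : (y + w) ^ 2 = y + w + x ^ 3 + u ^ 3 := by
        linear_combination h + hφ + (y * w + g - y - w) * k2
      have a2 : x = x * (1 + s ^ 2 * u ^ 2) * i ^ 2 := by
        linear_combination (-x * ((1 + s * u) * i + 1)) * hi + (x * s * u * i ^ 2) * k2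
      rw [mul_pow, mul_pow, a1, hm]
      linear_combination a2 + i ^ 2 * (x * (x * s + 1) + s * u ^ 2) * hs + (x * i ^ 2) * k2
    have hn : V (m + s * u ^ 2 + s ^ 2 * (w + u ^ 3)) 0 :=
      p.cg (p.add (p.add hmv (p.mul hsv (p.pow hu 2)))
        (p.mul (p.pow hsv 2) (p.add hw (p.pow hu 3)))) rfl (by ring)
    have hysm : y * s * m = 1 + m * s + g * s ^ 3 := by
      rw [hm]
      linear_combination s ^ 3 * h + (x ^ 2 * s ^ 2 + x * s + 1) * hs - (y * s ^ 3) * k2
    refine Or.inl ⟨_, _, k, c, d, hφ', (add_comm _ _).trans e, zero_add _, ?_, ?_⟩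
    · refine p.cg (p.add (p.mul hn (p.pow hiv 2)) hu) ?_ (by ring)
      rw [← hx3]; ring
    · have hN := p.add (p.add (p.add (p.add (p.add p.one (p.mul hmv hsv))
        (p.mul hg (p.pow hsv 3))) (p.mul hmv (p.pow hu 2)))
        (p.mul (p.mul hmv hsv) (p.add hw (p.pow hu 3)))) (p.mul (p.mul hw hsv) hn)
      refine p.cg (p.add (p.add (p.mul hN (p.pow hiv 3)) hw) p.one) ?_
        (by linear_combination f2)
      rw [hx3, ← hysm]
      linear_combination (i ^ 3 * (u ^ 2 + s * (w + u ^ 3))) * hm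

theorem sp_zero (V : K → F → Prop) (g : K) (g' : F) : Sp V (0 : G g) (0 : G g') :=
  Or.inr ⟨rfl, Or.inl rfl⟩

/-- A nonzero point which reduces to zero has a pole. -/
theorem sp_pole {g : K} {g' : F} {x y : K} {h : y ^ 2 + y = x ^ 3 + g}
    (hs : Sp V (pt g x y h) (0 : G g')) : x ≠ 0 ∧ V x⁻¹ 0 := by
  rcases hs with ⟨_, _, _, a, b, h', _, e, _⟩ | ⟨_, e | ⟨x', y', h', e, h1, h2⟩⟩
  · exact absurd e.symm (pt_ne_zero h')
  · exact absurd e (pt_ne_zero h)
  · obtain ⟨rfl, rfl⟩ := pt_inj.1 e
    exact ⟨h1, h2⟩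

theorem sp_eq_zero {g : K} {g' : F} {P : G g'} (hs : Sp V (0 : G g) P) : P = 0 := by
  rcases hs with ⟨_, _, h, _, _, _, e, _⟩ | ⟨e, _⟩
  · exact absurd e.symm (pt_ne_zero h)
  · exact e

section rat

open Polynomial

variable {k : Type*} [Field k]

/-- The value of a rational function under an evaluation map. -/
def Val (ev : k[X] →+* F) (x : RatFunc k) (z : F) : Prop :=
  ∃ a b : k[X], ev b ≠ 0 ∧ x = algebraMap k[X] (RatFunc k) a / algebraMap k[X] (RatFunc k) b ∧
    z = ev a / ev b

omit [CharP F 2] in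
theorem val_poly (ev : k[X] →+* F) (a : k[X]) : Val ev (algebraMap k[X] (RatFunc k) a) (ev a) :=
  ⟨a, 1, by simp, by simp, by simp⟩

omit [CharP F 2] in
theorem am_ne {ev : k[X] →+* F} {b : k[X]} (h : ev b ≠ 0) : algebraMap k[X] (RatFunc k) b ≠ 0 := by
  intro e
  rw [(map_eq_zero_iff _ (IsFractionRing.injective k[X] (RatFunc k))).1 e, map_zero] at h
  exact h rfl

omit [CharP F 2] in
theorem not_both (ev : k[X] →+* F) (x : RatFunc k) : ¬(ev x.num = 0 ∧ ev x.denom = 0) := by
  rintro ⟨h1, h2⟩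
  obtain ⟨p, q, e⟩ := RatFunc.isCoprime_num_denom x
  have := congrArg ev e
  rw [map_add, map_mul, map_mul, h1, h2, map_one, mul_zero, mul_zero, add_zero] at this
  exact zero_ne_one this

omit [CharP F 2] in
theorem place_val (ev : k[X] →+* F) : Place (Val ev) where
  add := by
    rintro _ _ _ _ ⟨a, b, hb, rfl, rfl⟩ ⟨c, d, hd, rfl, rfl⟩
    refine ⟨a * d + b * c, b * d, by rw [map_mul]; exact mul_ne_zero hb hd, ?_, ?_⟩
    · rw [div_add_div _ _ (am_ne hb) (am_ne hd), map_add, map_mul, map_mul, map_mul]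
    · rw [div_add_div _ _ hb hd, map_add, map_mul, map_mul, map_mul]
  mul := by
    rintro _ _ _ _ ⟨a, b, hb, rfl, rfl⟩ ⟨c, d, hd, rfl, rfl⟩
    refine ⟨a * c, b * d, by rw [map_mul]; exact mul_ne_zero hb hd, ?_, ?_⟩
    · rw [div_mul_div_comm, map_mul, map_mul]
    · rw [div_mul_div_comm, map_mul, map_mul]
  one := by simpa using val_poly ev 1
  inv := by
    rintro _ _ ⟨a, b, hb, rfl, rfl⟩ h
    exact ⟨b, a, fun e => h (by rw [e, zero_div]), inv_div _ _, inv_div _ _⟩
  uniq := by
    rintro _ _ _ ⟨a, b, hb, rfl, rfl⟩ ⟨c, d, hd, e, rfl⟩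
    rw [div_eq_div_iff (am_ne hb) (am_ne hd), ← map_mul, ← map_mul] at e
    have := congrArg ev (IsFractionRing.injective k[X] (RatFunc k) e)
    rw [div_eq_div_iff hb hd, ← map_mul, ← map_mul, this]
  dich := by
    intro x
    by_cases h : ev x.denom = 0
    · refine Or.inr ⟨x.denom, x.num, fun e => not_both ev x ⟨e, h⟩, ?_, by rw [h, zero_div]⟩
      rw [← inv_div, RatFunc.num_div_denom]
    · exact Or.inl ⟨_, x.num, x.denom, h, (RatFunc.num_div_denom x).symm, rfl⟩

omit [CharP F 2] in
/-- At a pole the denominator vanishes. -/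
theorem den_zero {ev : k[X] →+* F} {x : RatFunc k} (h0 : x ≠ 0) (h : Val ev x⁻¹ 0) :
    ev x.denom = 0 := by
  by_contra hd
  have h1 : Val ev x (ev x.num / ev x.denom) :=
    ⟨x.num, x.denom, hd, (RatFunc.num_div_denom x).symm, rfl⟩
  have h2 := (place_val ev).mul h1 h
  rw [mul_inv_cancel₀ h0, mul_zero] at h2
  exact one_ne_zero ((place_val ev).uniq (place_val ev).one h2)

variable [CharP (RatFunc k) 2]

theorem red_mp (ev : k[X] →+* F) (f u w : k[X]) (h : w ^ 2 + w = u ^ 3 + f)
    {ψ : G (algebraMap k[X] (RatFunc k) f)} {P : G (ev f)} (hs : Sp (Val ev) ψ P) :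
    Sp (Val ev) (ψ + mp (algebraMap k[X] (RatFunc k)) f u w h) (P + mp ev f u w h) :=
  red (place_val ev) (val_poly ev f) hs _ _ (val_poly ev u) (val_poly ev w)

theorem red_sum {ι : Type*} (ev : k[X] →+* F) (f : k[X]) (u w : ι → k[X])
    (h : ∀ i, w i ^ 2 + w i = u i ^ 3 + f) (S : Finset ι) :
    Sp (Val ev) (∑ i ∈ S, mp (algebraMap k[X] (RatFunc k)) f (u i) (w i) (h i))
      (∑ i ∈ S, mp ev f (u i) (w i) (h i)) := by
  classical
  induction S using Finset.induction with
  | empty => simpa using sp_zero (Val ev) _ _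
  | insert i S hi ih =>
    rw [Finset.sum_insert hi, Finset.sum_insert hi, add_comm _ (∑ i ∈ S, _),
      add_comm _ (∑ i ∈ S, _)]
    exact red_mp ev f _ _ (h i) ih

theorem red_nsmul (ev : k[X] →+* F) (f u w : k[X]) (h : w ^ 2 + w = u ^ 3 + f) (n : ℕ) :
    Sp (Val ev) (n • mp (algebraMap k[X] (RatFunc k)) f u w h) (n • mp ev f u w h) := by
  induction n with
  | zero => simpa using sp_zero (Val ev) _ _
  | succ n ih => rw [succ_nsmul, succ_nsmul]; exact red_mp ev f u w h ih

/-- If a sum of polynomial points is `(x, y)` and its evaluation is zero, `x` has a pole. -/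
theorem sum_pole {ι : Type*} (ev : k[X] →+* F) (f : k[X]) (u w : ι → k[X])
    (h : ∀ i, w i ^ 2 + w i = u i ^ 3 + f) (S : Finset ι) {x y : RatFunc k}
    {hxy : y ^ 2 + y = x ^ 3 + algebraMap k[X] (RatFunc k) f}
    (e : ∑ i ∈ S, mp (algebraMap k[X] (RatFunc k)) f (u i) (w i) (h i) = pt _ x y hxy)
    (e' : ∑ i ∈ S, mp ev f (u i) (w i) (h i) = 0) : ev x.denom = 0 := by
  have := red_sum ev f u w h S
  rw [e, e'] at this
  exact den_zero (sp_pole this).1 (sp_pole this).2

theorem nsmul_pole (ev : k[X] →+* F) (f u w : k[X]) (h : w ^ 2 + w = u ^ 3 + f) (n : ℕ)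
    {x y : RatFunc k} {hxy : y ^ 2 + y = x ^ 3 + algebraMap k[X] (RatFunc k) f}
    (e : n • mp (algebraMap k[X] (RatFunc k)) f u w h = pt _ x y hxy)
    (e' : n • mp ev f u w h = 0) : ev x.denom = 0 := by
  have := red_nsmul ev f u w h n
  rw [e, e'] at this
  exact den_zero (sp_pole this).1 (sp_pole this).2

theorem red_zsmul (ev : k[X] →+* F) (f u w : k[X]) (h : w ^ 2 + w = u ^ 3 + f) (n : ℤ)
    {ψ : G (algebraMap k[X] (RatFunc k) f)} {P : G (ev f)} (hs : Sp (Val ev) ψ P) :
    Sp (Val ev) (ψ + n • mp (algebraMap k[X] (RatFunc k)) f u w h) (P + n • mp ev f u w h) := by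
  induction n using Int.induction_on with
  | zero => simpa using hs
  | succ n ih =>
    rw [add_smul, add_smul, one_smul, one_smul, ← add_assoc, ← add_assoc]
    exact red_mp ev f u w h ih
  | pred n ih =>
    rw [sub_smul, sub_smul, one_smul, one_smul, sub_eq_add_neg, sub_eq_add_neg, ← add_assoc,
      ← add_assoc, mp, mp, neg_pt, neg_pt]
    exact red (place_val ev) (val_poly ev f) ih _ _ (val_poly ev u)
      ((place_val ev).add (val_poly ev w) (place_val ev).one)

theorem red_zsum {ι : Type*} (ev : k[X] →+* F) (f : k[X]) (u w : ι → k[X])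
    (h : ∀ i, w i ^ 2 + w i = u i ^ 3 + f) (n : ι → ℤ) (S : Finset ι) :
    Sp (Val ev) (∑ i ∈ S, n i • mp (algebraMap k[X] (RatFunc k)) f (u i) (w i) (h i))
      (∑ i ∈ S, n i • mp ev f (u i) (w i) (h i)) := by
  classical
  induction S using Finset.induction with
  | empty => simpa using sp_zero (Val ev) _ _
  | insert i S hi ih =>
    rw [Finset.sum_insert hi, Finset.sum_insert hi, add_comm _ (∑ i ∈ S, _),
      add_comm _ (∑ i ∈ S, _)]
    exact red_zsmul ev f _ _ (h i) _ ih

end rat

end REDx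

theorem red : RED := by
  intro k F ι _ _ _ _ ev f u w h S n x y hx e e'
  have := REDx.red_zsum ev f u w h n S
  rw [e, e'] at this
  exact REDx.den_zero (REDx.sp_pole this).1 (REDx.sp_pole this).2

end Pool.Agent.MP_070445_nt.W71
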