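import Pool.Agent.MP_070445_nt.W71.Defs

namespace Pool.Agent.MP_070445_nt.W71

open Polynomial

namespace RMx

theorem cov_of {A β : Type} [AddCommGroup A] [Finite β] {M H : AddSubgroup A} {n : ℕ}
    (h : Nat.card β = n) (κ : A → β) (hκ : ∀ x ∈ M, ∀ y ∈ M, κ x = κ y → x - y ∈ H) :
    Cov M H n :=
  ⟨fun x => Finite.equivFinOfCardEq h (κ x), fun x hx y hy e =>
    hκ x hx y hy ((Finite.equivFinOfCardEq h).injective e)⟩

theorem anti {k : Type} [Field k] {V W : AddSubgroup k} (h : W ≤ V) (j : ℕ) :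
    ∀ p ∈ PP V j, p ∈ PP W j := by
  induction j with
  | zero => exact fun p hp => hp
  | succ j ih =>
    intro p hp
    rw [mem_PP_succ] at hp ⊢
    exact fun v hv => ih _ (hp v (h hv))

theorem half {k : Type} [Field k] [Finite k] (r : ℕ) (V : AddSubgroup k)
    (hV : Nat.card V = 2 ^ (r + 1)) :
    ∃ W : AddSubgroup k, W ≤ V ∧ Nat.card W = 2 ^ r ∧ ∃ e ∈ V, ∀ v ∈ V, v + e ∈ W ∨ v ∈ W := by
  obtain ⟨K, hK⟩ := Sylow.exists_subgroup_card_pow_prime (G := Multiplicative V) 2 (n := r)
    (by rw [Nat.card_congr Multiplicative.toAdd, hV]; exact pow_dvd_pow _ (Nat.le_succ r))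
  have hK' : Nat.card (Subgroup.toAddSubgroup' K) = 2 ^ r := hK
  generalize Subgroup.toAddSubgroup' K = U at hK'
  have h2 : U.index = 2 := by
    have := U.card_mul_index
    rw [hK', hV, pow_succ] at this
    exact Nat.eq_of_mul_eq_mul_left (by positivity) this
  obtain ⟨a, ha⟩ := AddSubgroup.index_eq_two_iff.1 h2
  refine ⟨U.map V.subtype, AddSubgroup.map_subtype_le U, ?_, a, a.2, fun v hv => ?_⟩
  · rw [AddSubgroup.card_map_of_injective V.subtype_injective, hK']
  · rcases (ha ⟨v, hv⟩).or with h | h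
    · exact Or.inl ⟨_, h, rfl⟩
    · exact Or.inr ⟨_, h, rfl⟩

theorem zero {k : Type} [Field k] (r : ℕ) (V : AddSubgroup k) :
    Cov (PP V 0) (van V) (Nat.card k ^ Rn r 0) := by
  refine cov_of (β := Unit) (by cases r <;> simp [Rn]) (fun _ => ()) fun x hx y hy _ => ?_
  rw [(mem_PP_zero V x).1 hx, (mem_PP_zero V y).1 hy, sub_zero]
  exact zero_mem _

end RMx

theorem rm : RM := by
  intro k _ _ _ r
  induction r with
  | zero =>
    intro j V hV
    cases j with
    | zero => exact RMx.zero 0 V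
    | succ j =>
      refine RMx.cov_of (β := k) (by simp [Rn]) (fun p => p.eval 0) fun x _ y _ e => ?_
      rw [mem_van]
      intro v hv
      have hb : V = ⊥ := AddSubgroup.card_eq_one.1 hV
      rw [hb, AddSubgroup.mem_bot] at hv
      rw [hv, eval_sub]
      exact sub_eq_zero.2 e
  | succ r ih =>
    intro j V hV
    cases j with
    | zero => exact RMx.zero _ V
    | succ j =>
      obtain ⟨W, hW, cW, e, he, hv⟩ := RMx.half r V hV
      obtain ⟨κ₁, h1⟩ := ih (j + 1) W cW
      obtain ⟨κ₂, h2⟩ := ih j W cW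
      refine RMx.cov_of (β := Fin _ × Fin _) (by simp [Rn, pow_add])
        (fun p => (κ₁ p, κ₂ (dl e p))) fun x hx y hy h => ?_
      obtain ⟨e1, e2⟩ := Prod.mk.inj h
      have a1 := h1 x (RMx.anti hW _ x hx) y (RMx.anti hW _ y hy) e1
      have a2 := h2 _ (RMx.anti hW _ _ ((mem_PP_succ V j x).1 hx e he)) _
        (RMx.anti hW _ _ ((mem_PP_succ V j y).1 hy e he)) e2
      rw [← dl_apply, ← dl_apply, ← map_sub, dl_apply] at a2
      rw [mem_van] at a1 a2 ⊢
      intro v hv'
      rcases hv v hv' with h | h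
      · have b := a2 _ h
        rw [eval_add, a1 _ h, add_zero, eval_comp, eval_add, eval_X, eval_C, add_assoc,
          CharTwo.add_self_eq_zero, add_zero] at b
        exact b
      · exact a1 v h

end Pool.Agent.MP_070445_nt.W71
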