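import Pool.Agent.MP_070445_nt.W71.Defs

/-! A quarter of a finite additive group with pairwise sums outside `F₄`. -/

namespace Pool.Agent.MP_070445_nt.W71

open Polynomial

namespace SECx

theorem fib {k : Type} [Field k] (a : k) (Z : Finset k) (h : ∀ z ∈ Z, z ^ 4 + z = a) :
    Z.card ≤ 4 := by
  classical
  have d : (X ^ 4 + X - C a : k[X]).natDegree = 4 := by compute_degree!
  have p0 : (X ^ 4 + X - C a : k[X]) ≠ 0 := fun e => by
    rw [e, natDegree_zero] at d
    omega
  rw [← d]
  refine card_le_degree_of_subset_roots fun z hz => ?_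
  rw [mem_roots p0]
  simp [h z hz]

end SECx

theorem sec : SEC := by
  intro k _ _ V _
  classical
  have hf : (V : Set k).Finite := Set.toFinite _
  obtain ⟨W, hW⟩ : ∃ W : Finset k, (W : Set k) = V := ⟨hf.toFinset, hf.coe_toFinset⟩
  have hc : Nat.card V = W.card := by
    rw [← Set.ncard_coe_finset, hW, ← Nat.card_coe_set_eq]
    rfl
  obtain ⟨S, h1, h2, h3⟩ := Finset.exists_subset_injOn_image_eq_of_surjOn
    (f := fun c : k => c ^ 4 + c) (W : Set k) (W.image fun c : k => c ^ 4 + c)
    (by rw [Finset.coe_image]; exact Set.surjOn_image _ _)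
  refine ⟨S, fun c hc => ?_, ?_, fun c hc c' hc' hne e => hne (h2 hc hc' ?_)⟩
  · have := h1 hc
    rwa [hW] at this
  · rw [hc, ← Finset.card_image_of_injOn h2, h3]
    exact Finset.card_le_mul_card_image W 4 fun a _ =>
      SECx.fib a _ fun z hz => (Finset.mem_filter.1 hz).2
  · have t : (2 : k) = 0 := CharP.cast_eq_zero k 2
    change c ^ 4 + c = c' ^ 4 + c'
    linear_combination e + (c - c' ^ 4 - 2 * c ^ 3 * c' - 3 * c ^ 2 * c' ^ 2 - 2 * c * c' ^ 3) * t

end Pool.Agent.MP_070445_nt.W71
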