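import Pool.Agent.MP_070445_nt.W71.Defs

namespace Pool.Agent.MP_070445_nt.W71

open Polynomial H16w

theorem step : STEP := by
  intro F _ _ _ r K hr hK
  let _ : DecidableEq F := Classical.decEq F
  let _ : Algebra (ZMod 2) F := ZMod.algebra _ 2
  obtain ⟨l1, a1, a2, a3, a4, ⟨t0, t1, t2⟩, a5⟩ := prim (F := F) K hK
  have b1 : (X ^ r + C 1 : (ZMod 2)[X]).Monic := monic_X_pow_add_C _ (by omega)
  have b2 : (X ^ r + C 1 : (ZMod 2)[X]).coeff 0 ≠ 0 := by
    rw [coeff_add, coeff_X_pow, if_neg (by omega)]; simp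
  have b3 : (X ^ r + C 1 : (ZMod 2)[X]).natDegree = r := natDegree_X_pow_add_C
  have dl := a1.natDegree_mul b1
  obtain ⟨e, T, e1, e2, e3, e4⟩ := ker_iff (F := F) (a1.mul b1)
    (by rw [mul_coeff_zero]; exact mul_ne_zero a2 b2) (by omega)
  refine ⟨e, T, t0, e2, e3, by omega, by omega, fun a b h => (a5 t0 t1 t2 a b).1 h,
    fun a b κ N hκ hN hb hn c hc => ?_⟩
  have c2 : aeval (fr F) (X ^ r + C 1 : (ZMod 2)[X]) c = 0 := by
    simp only [map_add, map_pow, aeval_X, map_one, LinearMap.add_apply, fr_pow, Module.End.one_apply,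
      hc]
    exact CharTwo.add_self_eq_zero c
  have t := CharTwo.two_eq_zero (R := F[X])
  obtain ⟨V0, hV0⟩ := exists_V e2 ((e4 (t0 + c)).1 (by
    rw [map_add, map_mul, Module.End.mul_apply _ _ c, c2, map_zero, add_zero, ← map_mul, mul_comm,
      map_mul, Module.End.mul_apply, t2, map_zero]))
  obtain ⟨y0, y1, y2⟩ := (good_Lp e2 e3).push (c := t0 + c) (α := a + b * (V0 + Mp F T * Lp F T))
    hκ hN hb (by
      have hL : Lp F T = X + Mp F T ^ 2 := rfl
      rw [fp] at hn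
      linear_combination hn + b ^ 2 * hV0 + b ^ 2 * Lp F T ^ 2 * hL + (a * b * (V0 + Mp F T * Lp F T) +
        b ^ 2 * V0 * Mp F T * Lp F T + b ^ 2 * (Lp F T + C (t0 + c)) ^ 3 +
        b ^ 2 * Mp F T ^ 2 * Lp F T ^ 2) * t)
  rw [H16w.pt_eq y1] at y2
  exact ⟨y0, by rw [add_zero]; exact y1, y2⟩

end Pool.Agent.MP_070445_nt.W71
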