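import Pool.Agent.MP_070445_nt.W71.Defs

namespace Pool.Agent.MP_070445_nt.W71

open Polynomial H16w

theorem top (h1 : DATA) (h2 : STEP) (h3 : CORE) : TOP := by
  intro F _ _ _ r a K hr hK n1 n2
  obtain ⟨k, _, _, _, j, D, d1, d2, d3⟩ := h1 F r (by omega)
  obtain ⟨e, T, t, e1, e2, e3, e4, e5, e6⟩ := h2 F r K (by omega) hK
  refine ⟨e, T, e1, e2, e3, e4, fun α β κ N hκ hN hb hn => ?_⟩
  by_contra hlt
  rw [not_le] at hlt
  refine absurd (h3 k F j r a _ N D t (by omega) (Nat.pos_of_ne_zero hN) d1 d2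
    (fun c hc => e6 α β κ N hκ hN hb hn (j c) (by rw [← map_pow, d3 c hc])) e5 ?_) (not_le.2 n2)
  obtain ⟨s, rfl⟩ : ∃ s, r = s + 3 := ⟨r - 3, by omega⟩
  rw [Nat.add_sub_cancel] at hlt
  have lo := D.lo
  generalize a * Rn (s + 3) (a / 2 + 1) = q at *
  have p3 : 2 ^ (s + 3) = 8 * 2 ^ s := by ring
  have q1 : (4 ^ (s + 3)) ^ q ≤ 2 ^ 2 ^ s := by
    rw [show (4 : ℕ) = 2 ^ 2 from rfl, ← pow_mul, ← pow_mul]
    refine Nat.pow_le_pow_right two_pos ?_
    omega
  calc (2 * N ^ 2 + 1) * (4 ^ (s + 3)) ^ q < 2 ^ 2 ^ s * 2 ^ 2 ^ s :=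
        Nat.mul_lt_mul_of_lt_of_le hlt q1 (by positivity)
    _ ≤ 2 ^ D.S.card := by
        rw [← pow_add]
        exact Nat.pow_le_pow_right two_pos (by omega)

theorem main (h1 : NUM2) (h2 : TOP) : MAIN := by
  intro k _ _ _ ε hε n₀
  obtain ⟨r, a, K, r1, r2, r3, r4, r5, r6⟩ := h1 ε hε n₀
  obtain ⟨e, T, h1, h2, h3, h4, h5⟩ := h2 (AlgebraicClosure k) r a K r1 r3 r4 r5
  obtain ⟨-, f1, f2⟩ := degs (R := k) h1 h2
  have n0 : e + 1 < 2 ^ (e + 1) := Nat.lt_two_pow_self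
  have n1 : 2 ^ (e + 1) ≤ 2 ^ (K + r) := Nat.pow_le_pow_right two_pos h4
  obtain ⟨n, hn⟩ : ∃ n, n = 2 ^ (e + 1) + 1 := ⟨_, rfl⟩
  have c0 : (reflect (n + n) (fp k T)).coeff 0 = 0 := by
    rw [coeff_reflect, revAt_zero]; exact coeff_eq_zero_of_natDegree_lt (by omega)
  have c1 : (reflect (n + n) (fp k T)).coeff 1 = 1 := by
    rw [coeff_reflect, revAt_le (by omega), show n + n - 1 = (fp k T).natDegree by omega]
    exact f1
  have dA : (reflect (n + n) (fp k T)).natDegree < n + n := by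
    refine lt_of_le_of_ne (natDegree_reflect_le.trans (by omega)) fun e => ?_
    have := leadingCoeff_ne_zero.2 (show reflect (n + n) (fp k T) ≠ 0 from fun e => by simp [e] at c1)
    rw [leadingCoeff, e, coeff_reflect, revAt_le le_rfl, Nat.sub_self, coeff_zero_eq_eval_zero] at this
    exact this (fp_zero T)
  refine ⟨reflect (n + n) (fp k T), X ^ n, monic_X_pow n, by rw [natDegree_X_pow]; omega,
    by rw [natDegree_X_pow]; omega, IsCoprime.pow_left (irreducible_X.coprime_iff_not_dvd.2 ?_),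
    exists_unit (monic_X_pow n) (by rw [natDegree_X_pow]; omega) fun t u hu h => ?_,
    fun t u a ha hu h => ?_⟩
  · rw [X_dvd_iff, coeff_add, mul_coeff_zero, c0, sq, mul_coeff_zero, coeff_derivative, zero_add, c1]
    simp
  · obtain ⟨r1, r2⟩ := refl_unit dA hu (h.trans C_0.symm)
    rw [reflect_reflect, C_0, zero_mul] at r2
    exact parity (fun e => r1 (by rw [e, eval_zero])) f1 f2 r2
  obtain ⟨r1, r2⟩ := refl_unit dA hu h
  have r3 := congrArg (Polynomial.map (algebraMap k (AlgebraicClosure k))) r2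
  simp only [reflect_reflect, Polynomial.map_add, Polynomial.map_mul, Polynomial.map_pow, map_C, map_X,
    fp_map] at r3
  rw [natDegree_X_pow]
  exact r6 n _ (by omega) (h5 _ _ _ _ (by simpa using ha) (by omega) (by
    rwa [← coeff_zero_eq_eval_zero, coeff_map, _root_.map_ne_zero, coeff_zero_eq_eval_zero]) r3)

end Pool.Agent.MP_070445_nt.W71
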