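import Pool.Agent.MP_070445_nt.W71.Defs

/-! At most `2 N² + 1` points of `y² + y = x³ + g` are killed by `N`. -/

namespace Pool.Agent.MP_070445_nt.W71

open Polynomial

theorem tors (hred : RED) : TORS := by
  intro F _ _ g N hN
  classical
  have t : (2 : F[X]) = 0 := CharTwo.two_eq_zero
  have t' : (2 : F) = 0 := two0
  have hγ : (0 : F[X]) ^ 2 + 0 = X ^ 3 + X ^ 3 := by linear_combination (-X ^ 3) * t
  have h1 := ht_nsmul (mp (io F) (X ^ 3) X 0 hγ) N
  have h2 : ht (mp (io F) (X ^ 3) X 0 hγ) = 1 := by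
    rw [ht_mp, natDegree_X]
  rw [h2, mul_one] at h1
  rcases pt_cases (N • mp (io F) (X ^ 3) X 0 hγ) with e | ⟨x0, y0, q0, e⟩
  · rw [e, ht_zero] at h1
    exact absurd h1 (pow_pos hN 2).ne
  rw [e, ht_pt] at h1
  have hd : x0.denom.natDegree ≤ N ^ 2 := h1 ▸ HT.den_le x0
  have fib : ∀ x : F, ∃ A : Finset (G g), A.card ≤ 2 ∧ ∀ y h, pt g x y h ∈ A := by
    intro x
    by_cases hx : ∃ y : F, y ^ 2 + y = x ^ 3 + g
    · obtain ⟨y, h⟩ := hx
      refine ⟨{pt g x y h, -pt g x y h}, Finset.card_le_two, fun y' h' => ?_⟩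
      rcases pt_same_x h h' with a | a <;> simp [a]
    · exact ⟨∅, by simp, fun y h => absurd ⟨y, h⟩ hx⟩
  choose A A1 A2 using fib
  refine ⟨insert 0 (x0.denom.roots.toFinset.biUnion A), ?_, fun P hP => ?_⟩
  · have a := Finset.card_insert_le (0 : G g) (x0.denom.roots.toFinset.biUnion A)
    have b := Finset.card_biUnion_le_card_mul x0.denom.roots.toFinset A 2 fun x _ => A1 x
    have c := Multiset.toFinset_card_le x0.denom.roots
    have d := card_roots' x0.denom
    omega
  · rcases pt_cases P with rfl | ⟨x, y, h, rfl⟩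
    · exact Finset.mem_insert_self _ _
    refine Finset.mem_insert_of_mem (Finset.mem_biUnion.2 ⟨x, ?_, A2 x y h⟩)
    have hd' : y ^ 2 + y = RingHom.id F g + evalRingHom x (X ^ 3) := by
      simp only [RingHom.id_apply, coe_evalRingHom, eval_pow, eval_X]
      linear_combination h
    obtain ⟨φ, hφ⟩ := exists_hom (RingHom.id F) hd'
    have e1 : φ (pt g x y h) = mp (evalRingHom x) (X ^ 3) X 0 hγ := by
      rw [hφ, mp]
      refine pt_inj.2 ⟨by simp, ?_⟩
      simp only [RingHom.id_apply, map_zero]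
      linear_combination y * t'
    have r := hred F F Unit (evalRingHom x) (X ^ 3) (fun _ => X) (fun _ => 0) (fun _ => hγ) {()}
      (fun _ => N) x0 y0 q0 (by rw [Finset.sum_singleton, natCast_zsmul, e])
      (by rw [Finset.sum_singleton, natCast_zsmul, ← e1, ← map_nsmul, hP, map_zero])
    rw [Multiset.mem_toFinset, mem_roots x0.denom_ne_zero]
    exact r

end Pool.Agent.MP_070445_nt.W71
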