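import Pool.Agent.MP_070445_nt.W71.Defs

namespace Pool.Agent.MP_070445_nt.W71

open Polynomial

namespace ZEROx

theorem frob_eval {k F : Type} [Field k] [Field F] [CharP F 2] (j : k →+* F) (r : ℕ)
    (hz : ∀ z : k, z ^ 4 ^ r = z) (p : k[X]) (s : F) (i : ℕ) :
    p.eval₂ j s ^ 2 ^ (2 * r * i) = p.eval₂ j (s ^ 2 ^ (2 * r * i)) := by
  have : Fact (Nat.Prime 2) := ⟨Nat.prime_two⟩
  have h1 : ∀ (n : ℕ) (z : k), z ^ 2 ^ (2 * r * n) = z := by
    intro n z
    induction n with
    | zero => simp
    | succ n ih =>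
      have e : 2 ^ (2 * r * (n + 1)) = 2 ^ (2 * r * n) * 4 ^ r := by
        rw [mul_add, mul_one, pow_add, pow_mul 2 2 r]; norm_num
      rw [e, pow_mul, ih, hz]
  have h2 : (iterateFrobenius F 2 (2 * r * i)).comp j = j := by
    ext z
    rw [RingHom.comp_apply, iterateFrobenius_def, ← map_pow, h1]
  have h3 := Polynomial.hom_eval₂ p j (iterateFrobenius F 2 (2 * r * i)) s
  rw [h2, iterateFrobenius_def, iterateFrobenius_def] at h3
  exact h3

end ZEROx

theorem zero : ZERO := by
  classical
  intro k F _ _ _ j r m L β s hr hz hβ hs hm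
  have hb : β.map j ≠ 0 := (Polynomial.map_ne_zero_iff j.injective).2 hβ
  have hc : (β.map j).roots.toFinset.card < (Finset.range (β.natDegree + 1)).card := by
    rw [Finset.card_range]
    have h1 := Multiset.toFinset_card_le (β.map j).roots
    have h2 := Polynomial.card_roots' (β.map j)
    have h3 : (β.map j).natDegree ≤ β.natDegree := Polynomial.natDegree_map_le
    omega
  obtain ⟨a, ha, b, hb', hab, he⟩ := Finset.exists_ne_map_eq_of_card_lt_of_maps_to hc
    (f := fun i => s ^ 2 ^ (2 * r * i)) (by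
      intro i _
      rw [Finset.mem_coe, Multiset.mem_toFinset, Polynomial.mem_roots hb, Polynomial.IsRoot,
        Polynomial.eval_map, ← ZEROx.frob_eval j r hz, hs, zero_pow (by positivity)])
  rw [Finset.mem_range] at ha hb'
  have hmod : 2 * r * a ≡ 2 * r * b [MOD m] := by
    apply hm
    rw [ZEROx.frob_eval j r hz, ZEROx.frob_eval j r hz, he]
  have key : ∀ a b : ℕ, a < b → b ≤ β.natDegree → 2 * r * a ≡ 2 * r * b [MOD m] →
      m ≤ 2 * r * β.natDegree := by
    intro a b hlt hle h
    have h1 : 2 * r * a < 2 * r * b := Nat.mul_lt_mul_of_pos_left hlt (by omega)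
    have h2 := Nat.le_of_dvd (by omega) ((Nat.modEq_iff_dvd' h1.le).1 h)
    have h3 : 2 * r * b ≤ 2 * r * β.natDegree := Nat.mul_le_mul_left _ hle
    omega
  rcases lt_or_gt_of_ne hab with h | h
  · exact key a b h (by omega) hmod
  · exact key b a h (by omega) hmod.symm

end Pool.Agent.MP_070445_nt.W71
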