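import Pool.Agent.MP_070445_nt.W71.RTEX
import Pool.Agent.MP_070445_nt.W71.RPIG
import Pool.Agent.MP_070445_nt.W71.RRM
import Pool.Agent.MP_070445_nt.W71.RPMONO
import Pool.Agent.MP_070445_nt.W71.RSTEP
import Pool.Agent.MP_070445_nt.W71.RTOP
import Pool.Agent.MP_070445_nt.W71.RCORE
import Pool.Agent.MP_070445_nt.W71.RCHA
import Pool.Agent.MP_070445_nt.W71.RCHB
import Pool.Agent.MP_070445_nt.W71.RDIFFW
import Pool.Agent.MP_070445_nt.W71.RFILT
import Pool.Agent.MP_070445_nt.W71.RGEN2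
import Pool.Agent.MP_070445_nt.W71.RNUM0
import Pool.Agent.MP_070445_nt.W71.RNUM1
import Pool.Agent.MP_070445_nt.W71.RNUM2
import Pool.Agent.MP_070445_nt.W71.RREDW
import Pool.Agent.MP_070445_nt.W71.RSEC
import Pool.Agent.MP_070445_nt.W71.RTORS
import Pool.Agent.MP_070445_nt.W71.RZERO
import Pool.Agent.MP_070445_nt.W71.RIDX
import Pool.Agent.MP_070445_nt.W71.RDATA

/-! Assembly of the steps. -/

namespace Pool.Agent.MP_070445_nt.W71

theorem all : MAIN :=
  main (num2 (num1 num0)) (top (data sec) step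
    (core (gen1 diff rm filt idx pmono (cha tex)) (gen2 (cha tex) chb) red (tors red) pig zero))

end Pool.Agent.MP_070445_nt.W71
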