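import Mathlib

/-! The curves `y² + y = x³ + g` in characteristic two: points, group law, homomorphisms. -/

namespace Pool.Agent.MP_070445_nt.W71

open WeierstrassCurve

variable {K K' : Type*} [Field K] [Field K']

/-- The Weierstrass curve `y² + y = x³ + g`. -/
def crv (g : K) : WeierstrassCurve.Affine K := ⟨0, 0, 1, 0, g⟩

/-- Its group of points. -/
def G (g : K) : Type _ := (crv g).Point

noncomputable instance (g : K) : AddCommGroup (G g) :=
  letI := Classical.decEq K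
  inferInstanceAs (AddCommGroup (crv g).Point)

theorem two0 [CharP K 2] : (2 : K) = 0 := CharP.cast_eq_zero K 2

theorem nonsing [CharP K 2] {g x y : K} (h : y ^ 2 + y = x ^ 3 + g) : (crv g).Nonsingular x y := by
  rw [Affine.nonsingular_iff, Affine.equation_iff]
  refine ⟨by simp only [crv]; linear_combination h, Or.inr ?_⟩
  simp only [crv]
  intro h1
  have : (1 : K) = 0 := by linear_combination h1 - y * (two0 (K := K))
  exact one_ne_zero this

/-- The affine point `(x, y)`. -/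
def pt [CharP K 2] (g x y : K) (h : y ^ 2 + y = x ^ 3 + g) : G g :=
  Affine.Point.some x y (nonsing h)

variable [CharP K 2] [CharP K' 2]

theorem pt_ne_zero {g x y : K} (h : y ^ 2 + y = x ^ 3 + g) : pt g x y h ≠ 0 :=
  Affine.Point.some_ne_zero (nonsing h)

theorem pt_cases {g : K} (P : G g) : P = 0 ∨ ∃ x y h, P = pt g x y h := by
  rcases P with _ | ⟨x, y, h⟩
  · exact Or.inl rfl
  · refine Or.inr ⟨x, y, ?_, rfl⟩
    have := h.1
    rw [Affine.equation_iff] at this
    simp only [crv] at this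
    linear_combination this

theorem pt_inj {g x y x' y' : K} {h : y ^ 2 + y = x ^ 3 + g} {h' : y' ^ 2 + y' = x' ^ 3 + g} :
    pt g x y h = pt g x' y' h' ↔ x = x' ∧ y = y' := by
  constructor
  · intro e
    exact Affine.Point.some.inj e
  · rintro ⟨rfl, rfl⟩; rfl

theorem neg_eqn {g x y : K} (h : y ^ 2 + y = x ^ 3 + g) : (y + 1) ^ 2 + (y + 1) = x ^ 3 + g := by
  linear_combination h + (y + 1) * (two0 (K := K))

theorem neg_pt {g x y : K} (h : y ^ 2 + y = x ^ 3 + g) :
    -pt g x y h = pt g x (y + 1) (neg_eqn h) := by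
  change Affine.Point.some _ _ _ = Affine.Point.some _ _ _
  congr 1
  simp only [Affine.negY, crv]
  linear_combination (-y - 1) * (two0 (K := K))

theorem same_x {g x y y' : K} (h : y ^ 2 + y = x ^ 3 + g) (h' : y' ^ 2 + y' = x ^ 3 + g) :
    y' = y ∨ y' = y + 1 := by
  have : (y' - y) * (y' - (y + 1)) = 0 := by
    linear_combination h' + h - (x ^ 3 + g + y' * y + y') * (-two0 (K := K)) * 1 - 2 * (y' * y + y') * (two0 (K := K))
  rcases mul_eq_zero.1 this with a | a
  · exact Or.inl (sub_eq_zero.1 a)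
  · exact Or.inr (sub_eq_zero.1 a)

theorem pt_same_x {g x y y' : K} (h : y ^ 2 + y = x ^ 3 + g) (h' : y' ^ 2 + y' = x ^ 3 + g) :
    pt g x y' h' = pt g x y h ∨ pt g x y' h' = -pt g x y h := by
  rcases same_x h h' with e | e
  · exact Or.inl (pt_inj.2 ⟨rfl, e⟩)
  · exact Or.inr (by rw [neg_pt]; exact pt_inj.2 ⟨rfl, e⟩)

/-- Sum of two points with different abscissae, `l` the slope. -/
theorem add_pt {g x₁ y₁ x₂ y₂ l : K} (h₁ : y₁ ^ 2 + y₁ = x₁ ^ 3 + g) (h₂ : y₂ ^ 2 + y₂ = x₂ ^ 3 + g)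
    (hx : x₁ ≠ x₂) (hl : l * (x₁ + x₂) = y₁ + y₂) :
    ∃ h₃, pt g x₁ y₁ h₁ + pt g x₂ y₂ h₂ =
      pt g (l ^ 2 + x₁ + x₂) (l * (l ^ 2 + x₂) + y₁ + 1) h₃ := by
  let _ := Classical.decEq K
  have e : pt g x₁ y₁ h₁ + pt g x₂ y₂ h₂ = _ :=
    Affine.Point.add_of_X_ne (h₁ := nonsing h₁) (h₂ := nonsing h₂) hx
  have hs : (crv g).slope x₁ x₂ y₁ y₂ = l := by
    rw [Affine.slope_of_X_ne hx, div_eq_iff (sub_ne_zero.2 hx)]
    linear_combination -hl + (l * x₂ - y₂) * (two0 (K := K))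
  rcases pt_cases (pt g x₁ y₁ h₁ + pt g x₂ y₂ h₂) with z | ⟨x, y, h, z⟩
  · exact absurd (e.symm.trans z) (Affine.Point.some_ne_zero _)
  · obtain ⟨ex, ey⟩ := Affine.Point.some.inj (e.symm.trans z)
    rw [hs] at ex ey
    simp only [Affine.addY, Affine.negY, Affine.negAddY, Affine.addX, crv] at ex ey
    have ex' : x = l ^ 2 + x₁ + x₂ := by linear_combination -ex - (x₁ + x₂) * (two0 (K := K))
    have ey' : y = l * (l ^ 2 + x₂) + y₁ + 1 := by
      linear_combination -ey - (l ^ 3 - l * x₁ + y₁ + 1) * (two0 (K := K))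
    subst ex' ey'
    exact ⟨h, z⟩

/-- Doubling. -/
theorem dbl_pt {g x y : K} (h : y ^ 2 + y = x ^ 3 + g) :
    ∃ h₃, pt g x y h + pt g x y h = pt g (x ^ 4) (x ^ 6 + x ^ 3 + y + 1) h₃ := by
  let _ := Classical.decEq K
  have hy : y ≠ (crv g).negY x y := by
    simp only [Affine.negY, crv]
    intro h1
    have : (1 : K) = 0 := by linear_combination h1 - y * (two0 (K := K))
    exact one_ne_zero this
  have e : pt g x y h + pt g x y h = _ := Affine.Point.add_self_of_Y_ne (h₁ := nonsing h) hy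
  have hs : (crv g).slope x x y y = x ^ 2 := by
    rw [Affine.slope_of_Y_ne rfl hy, div_eq_iff (sub_ne_zero.2 hy)]
    simp only [Affine.negY, crv]
    linear_combination (x ^ 2 - x ^ 2 * y) * (two0 (K := K))
  rcases pt_cases (pt g x y h + pt g x y h) with z | ⟨x', y', h', z⟩
  · exact absurd (e.symm.trans z) (Affine.Point.some_ne_zero _)
  · obtain ⟨ex, ey⟩ := Affine.Point.some.inj (e.symm.trans z)
    rw [hs] at ex ey
    simp only [Affine.addY, Affine.negY, Affine.negAddY, Affine.addX, crv] at ex ey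
    have ex' : x' = x ^ 4 := by linear_combination -ex - x * (two0 (K := K))
    have ey' : y' = x ^ 6 + x ^ 3 + y + 1 := by
      linear_combination -ey - (x ^ 6 - x ^ 3 + y + 1) * (two0 (K := K))
    subst ex' ey'
    exact ⟨h', z⟩

omit [CharP K 2] in
theorem hom_eqn (τ : K →+* K') {g : K} {g' d : K'} (hd : d ^ 2 + d = τ g + g') {x y : K}
    (h : y ^ 2 + y = x ^ 3 + g) : (τ y + d) ^ 2 + (τ y + d) = τ x ^ 3 + g' := by
  have := congrArg τ h
  simp only [map_add, map_pow] at this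
  linear_combination this + hd + (τ y * d + τ g) * (two0 (K := K'))

/-- The map `(x, y) ↦ (τ x, τ y + d)` is a homomorphism. -/
theorem exists_hom (τ : K →+* K') {g : K} {g' d : K'} (hd : d ^ 2 + d = τ g + g') :
    ∃ φ : G g →+ G g', ∀ x y h, φ (pt g x y h) = pt g' (τ x) (τ y + d) (hom_eqn τ hd h) := by
  classical
  have hex : ∀ P : G g, ∃ Q : G g', (P = 0 → Q = 0) ∧
      ∀ x y h, P = pt g x y h → Q = pt g' (τ x) (τ y + d) (hom_eqn τ hd h) := by
    intro P
    rcases pt_cases P with rfl | ⟨x, y, h, rfl⟩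
    · exact ⟨0, fun _ => rfl, fun x y h e => absurd e.symm (pt_ne_zero h)⟩
    · refine ⟨pt g' (τ x) (τ y + d) (hom_eqn τ hd h), fun e => absurd e (pt_ne_zero h),
        fun x' y' h' e => ?_⟩
      obtain ⟨rfl, rfl⟩ := pt_inj.1 e
      rfl
  choose φ h0 h1 using hex
  have z : φ 0 = 0 := h0 0 rfl
  have s : ∀ x y h, φ (pt g x y h) = pt g' (τ x) (τ y + d) (hom_eqn τ hd h) :=
    fun x y h => h1 _ x y h rfl
  refine ⟨AddMonoidHom.mk' φ ?_, s⟩
  intro P Q
  rcases pt_cases P with rfl | ⟨x, y, h, rfl⟩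
  · simp [z]
  rcases pt_cases Q with rfl | ⟨x', y', h', rfl⟩
  · simp [z]
  by_cases hx : x = x'
  · subst hx
    rcases same_x h h' with rfl | rfl
    · obtain ⟨h₃, e⟩ := dbl_pt h
      obtain ⟨h₄, e'⟩ := dbl_pt (hom_eqn τ hd h)
      rw [e, s, s, e']
      refine pt_inj.2 ⟨by simp, ?_⟩
      simp only [map_add, map_pow, map_one]; ring
    · have e : pt g x (y + 1) h' = -pt g x y h := (neg_pt h).symm
      have e' : φ (pt g x (y + 1) h') = -φ (pt g x y h) := by
        rw [s, s, neg_pt]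
        refine pt_inj.2 ⟨rfl, ?_⟩
        simp only [map_add, map_one]; ring
      rw [e', e, add_neg_cancel, add_neg_cancel, z]
  · have hne : x + x' ≠ 0 := fun e => hx (by linear_combination e - x' * (two0 (K := K)))
    have hl : (y + y') / (x + x') * (x + x') = y + y' := div_mul_cancel₀ _ hne
    obtain ⟨h₃, e⟩ := add_pt h h' hx hl
    have hl' : τ ((y + y') / (x + x')) * (τ x + τ x') = (τ y + d) + (τ y' + d) := by
      rw [← map_add, ← map_mul, hl, map_add]
      linear_combination (-d) * (two0 (K := K'))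
    obtain ⟨h₄, e'⟩ := add_pt (hom_eqn τ hd h) (hom_eqn τ hd h') (fun e => hx (τ.injective e)) hl'
    rw [e, s, s, s, e']
    refine pt_inj.2 ⟨by simp, ?_⟩
    simp only [map_add, map_mul, map_pow, map_one]; ring

theorem pi_hd (g : K) : g ^ 2 + g = frobenius K 2 g + g := by rw [frobenius_def]

/-- The Frobenius endomorphism `(x, y) ↦ (x², y² + g)`. -/
noncomputable def piH (g : K) : G g →+ G g := (exists_hom (frobenius K 2) (pi_hd g)).choose

theorem piH_pt {g x y : K} (h : y ^ 2 + y = x ^ 3 + g) :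
    ∃ h', piH g (pt g x y h) = pt g (x ^ 2) (y ^ 2 + g) h' :=
  ⟨_, (exists_hom (frobenius K 2) (pi_hd g)).choose_spec x y h⟩

theorem piH_inj (g : K) : Function.Injective (piH g) := by
  rw [injective_iff_map_eq_zero]
  intro P hP
  rcases pt_cases P with rfl | ⟨x, y, h, rfl⟩
  · rfl
  · obtain ⟨h', e⟩ := piH_pt h
    exact absurd (e.symm.trans hP) (pt_ne_zero h')

theorem piH_piH (g : K) (P : G g) : piH g (piH g P) = -(2 • P) := by
  rcases pt_cases P with rfl | ⟨x, y, h, rfl⟩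
  · simp
  · obtain ⟨h₁, e₁⟩ := piH_pt h
    obtain ⟨h₂, e₂⟩ := piH_pt h₁
    obtain ⟨h₃, e₃⟩ := dbl_pt h
    rw [e₁, e₂, two_nsmul, e₃, neg_pt]
    refine pt_inj.2 ⟨by ring, ?_⟩
    linear_combination (y ^ 2 + y + x ^ 3 + g) * h - h +
      (y ^ 2 * g + g ^ 2 - x ^ 3 - 1 - y ^ 3 + x ^ 3 * g) * (two0 (K := K))

theorem two_inj {g : K} {P : G g} (h : 2 • P = 0) : P = 0 := by
  apply piH_inj g
  apply piH_inj g
  rw [piH_piH, h]; simp

/-- The `a`-th power of the Frobenius endomorphism. -/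
noncomputable def piN (g : K) : ℕ → (G g →+ G g)
  | 0 => AddMonoidHom.id _
  | a + 1 => (piH g).comp (piN g a)

theorem piN_zero (g : K) (P : G g) : piN g 0 P = P := rfl

theorem piN_succ (g : K) (a : ℕ) (P : G g) : piN g (a + 1) P = piH g (piN g a P) := rfl

theorem piN_pt {g x y : K} (h : y ^ 2 + y = x ^ 3 + g) (a : ℕ) :
    ∃ y' h', piN g a (pt g x y h) = pt g (x ^ 2 ^ a) y' h' := by
  induction a with
  | zero =>
    refine ⟨y, by simpa using h, ?_⟩
    rw [piN_zero]
    exact pt_inj.2 ⟨by simp, rfl⟩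
  | succ a ih =>
    obtain ⟨y', h', e⟩ := ih
    obtain ⟨h₂, e₂⟩ := piH_pt h'
    refine ⟨y' ^ 2 + g, by rw [pow_succ 2 a, pow_mul]; exact h₂, ?_⟩
    rw [piN_succ, e, e₂]
    exact pt_inj.2 ⟨by rw [pow_succ 2 a, pow_mul], rfl⟩

/-- The point with coordinates `τ u`, `τ w` for a point `(u, w)` over a ring. -/
def mp {R : Type*} [CommRing R] (τ : R →+* K) (f u w : R) (h : w ^ 2 + w = u ^ 3 + f) : G (τ f) :=
  pt (τ f) (τ u) (τ w) (by simpa only [map_add, map_pow] using congrArg τ h)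

end Pool.Agent.MP_070445_nt.W71
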