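import Pool.Agent.MP_070445_nt.W71.Base

/-! Degree height on `y^2 + y = x^3 + g` over `k(s)`, characteristic two: exact parallelogram law. -/

namespace Pool.Agent.MP_070445_nt.W71.HT

open Polynomial

variable {k : Type*} [Field k]

/-- degree of a rational function -/
noncomputable def hr (x : RatFunc k) : ℕ := max x.num.natDegree x.denom.natDegree

lemma nd_le {w t u : k[X]} (ht : t ≠ 0) (h : w * t = u) : w.natDegree ≤ u.natDegree := by
  by_cases hw : w = 0
  · simp [hw]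
  · rw [← h, natDegree_mul hw ht]
    omega

lemma mul_den (x : RatFunc k) :
    x * algebraMap k[X] (RatFunc k) x.denom = algebraMap k[X] (RatFunc k) x.num := by
  have h := RatFunc.num_div_denom x
  have hd : algebraMap k[X] (RatFunc k) x.denom ≠ 0 := RatFunc.algebraMap_ne_zero x.denom_ne_zero
  rw [div_eq_iff hd] at h
  exact h.symm

lemma cross {x : RatFunc k} {a b : k[X]}
    (h : x * algebraMap k[X] (RatFunc k) b = algebraMap k[X] (RatFunc k) a) :
    x.num * b = a * x.denom := by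
  apply RatFunc.algebraMap_injective k
  rw [map_mul, map_mul, ← mul_den x, ← h]
  ring

lemma hr_le {x : RatFunc k} {a b : k[X]} {m : ℕ} (hb : b ≠ 0)
    (h : x * algebraMap k[X] (RatFunc k) b = algebraMap k[X] (RatFunc k) a)
    (h1 : a.natDegree ≤ m) (h2 : b.natDegree ≤ m) : hr x ≤ m := by
  have hc := cross h
  obtain ⟨t, ht⟩ : x.denom ∣ b :=
    (RatFunc.isCoprime_num_denom x).symm.dvd_of_dvd_mul_left ⟨a, by rw [hc]; ring⟩
  have ht0 : t ≠ 0 := fun e => hb (by rw [ht, e, mul_zero])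
  have ha : x.num * t = a := mul_right_cancel₀ x.denom_ne_zero (by rw [← hc, ht]; ring)
  exact max_le ((nd_le ht0 ha).trans h1) ((nd_le ht0 ht.symm).trans h2)

lemma hr_eq {x : RatFunc k} {a b : k[X]} (hb : b ≠ 0) (hab : IsCoprime a b)
    (h : x * algebraMap k[X] (RatFunc k) b = algebraMap k[X] (RatFunc k) a) :
    hr x = max a.natDegree b.natDegree := by
  refine le_antisymm (hr_le hb h (le_max_left _ _) (le_max_right _ _)) ?_
  have hc := cross h
  obtain ⟨t, ht⟩ : b ∣ x.denom := hab.symm.dvd_of_dvd_mul_left ⟨x.num, by rw [← hc]; ring⟩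
  have ht0 : t ≠ 0 := fun e => x.denom_ne_zero (by rw [ht, e, mul_zero])
  have ha : a * t = x.num := mul_right_cancel₀ hb (by rw [hc, ht]; ring)
  exact max_le_max (nd_le ht0 ha) (nd_le ht0 ht.symm)

lemma hr_pow (x : RatFunc k) (n : ℕ) : hr (x ^ n) = n * hr x := by
  have h : x ^ n * algebraMap k[X] (RatFunc k) (x.denom ^ n) =
      algebraMap k[X] (RatFunc k) (x.num ^ n) := by
    rw [map_pow, map_pow, ← mul_pow, mul_den]
  rw [hr_eq (pow_ne_zero _ x.denom_ne_zero) (RatFunc.isCoprime_num_denom x).pow h,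
    natDegree_pow, natDegree_pow, hr, mul_max]

lemma hr_poly (a : k[X]) : hr (algebraMap k[X] (RatFunc k) a) = a.natDegree := by
  simp [hr]

lemma den_le (x : RatFunc k) : x.denom.natDegree ≤ hr x := le_max_right _ _

/-- a ring map of `k(s)` that does not raise degrees of polynomials does not raise `hr` -/
lemma hr_map_le (τ : RatFunc k →+* RatFunc k) (σ : k[X] → k[X])
    (hσ : ∀ a, τ (algebraMap k[X] (RatFunc k) a) = algebraMap k[X] (RatFunc k) (σ a))
    (hd : ∀ a, (σ a).natDegree ≤ a.natDegree) (x : RatFunc k) : hr (τ x) ≤ hr x := by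
  have h := congrArg τ (mul_den x)
  rw [map_mul, hσ, hσ] at h
  refine hr_le ?_ h ((hd _).trans (le_max_left _ _)) ((hd _).trans (le_max_right _ _))
  intro e
  have h0 := hσ x.denom
  rw [e, map_zero, map_eq_zero] at h0
  exact RatFunc.algebraMap_ne_zero x.denom_ne_zero h0

lemma gauss {R : Type*} [CommRing R] {c1 e1 c2 e2 u0 u1 u2 : R} (p1 : IsCoprime c1 e1)
    (p2 : IsCoprime c2 e2) (h1 : (c1 * e2 + c2 * e1) * u0 = u1 * (e1 * e2))
    (h2 : c1 * c2 * u0 = u2 * (e1 * e2)) : e1 * e2 ∣ u0 := by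
  obtain ⟨a1, b1, q1⟩ := p1
  obtain ⟨a2, b2, q2⟩ := p2
  have hone : (a1 * a2 * (c1 * c2) + b1 * b2 * (e1 * e2)) +
      (a1 * b2 * (c1 * e2) + b1 * a2 * (c2 * e1)) = 1 := by
    linear_combination (a2 * c2 + b2 * e2) * q1 + q2
  refine ⟨(a1 * a2 * u2 + b1 * b2 * u0) * ((a1 * a2 * (c1 * c2) + b1 * b2 * (e1 * e2)) +
      2 * (a1 * b2 * (c1 * e2) + b1 * a2 * (c2 * e1))) +
      ((a1 * b2) ^ 2 * (c1 * e2) + (b1 * a2) ^ 2 * (c2 * e1)) * u1 +
      (2 * (a1 * b2) * (b1 * a2) - (a1 * b2) ^ 2 - (b1 * a2) ^ 2) * (c1 * c2) * u0, ?_⟩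
  linear_combination ((a1 * b2) ^ 2 * (c1 * e2) + (b1 * a2) ^ 2 * (c2 * e1)) * h1 +
    a1 * a2 * ((a1 * a2 * (c1 * c2) + b1 * b2 * (e1 * e2)) +
      2 * (a1 * b2 * (c1 * e2) + b1 * a2 * (c2 * e1))) * h2 -
    u0 * ((a1 * a2 * (c1 * c2) + b1 * b2 * (e1 * e2)) +
      (a1 * b2 * (c1 * e2) + b1 * a2 * (c2 * e1)) + 1) * hone

lemma mixed {c1 e1 c2 e2 : k[X]} (he : e2 ≠ 0) (h1 : e1.natDegree < c1.natDegree)
    (h2 : c2.natDegree ≤ e2.natDegree) :
    (c1 * e2 + c2 * e1).natDegree = c1.natDegree + e2.natDegree := by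
  have hc : c1 ≠ 0 := fun e => by simp [e] at h1
  have h3 := natDegree_mul hc he
  have h4 : (c2 * e1).natDegree ≤ c2.natDegree + e1.natDegree := natDegree_mul_le
  rw [natDegree_add_eq_left_of_natDegree_lt (by omega), h3]

lemma pair_le {x z : RatFunc k} {u0 u1 u2 : k[X]} {m : ℕ} (h0 : u0 ≠ 0)
    (h1 : (x + z) * algebraMap k[X] (RatFunc k) u0 = algebraMap k[X] (RatFunc k) u1)
    (h2 : x * z * algebraMap k[X] (RatFunc k) u0 = algebraMap k[X] (RatFunc k) u2)
    (d0 : u0.natDegree ≤ m) (d1 : u1.natDegree ≤ m) (d2 : u2.natDegree ≤ m) :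
    hr x + hr z ≤ m := by
  have hx := mul_den x
  have hz := mul_den z
  have ex := x.denom_ne_zero
  have ez := z.denom_ne_zero
  have g1 : (x.num * z.denom + z.num * x.denom) * u0 = u1 * (x.denom * z.denom) := by
    apply RatFunc.algebraMap_injective k
    simp only [map_mul, map_add]
    rw [← hx, ← hz, ← h1]
    ring
  have g2 : x.num * z.num * u0 = u2 * (x.denom * z.denom) := by
    apply RatFunc.algebraMap_injective k
    simp only [map_mul]
    rw [← hx, ← hz, ← h2]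
    ring
  obtain ⟨t, ht⟩ := gauss (RatFunc.isCoprime_num_denom x) (RatFunc.isCoprime_num_denom z) g1 g2
  have ht0 : t ≠ 0 := fun e => h0 (by rw [ht, e, mul_zero])
  have w0 := (nd_le ht0 ht.symm).trans d0
  have w1 : (x.num * z.denom + z.num * x.denom).natDegree ≤ m :=
    (nd_le ht0 (mul_right_cancel₀ (mul_ne_zero ex ez) (by rw [← g1, ht]; ring))).trans d1
  have w2 : (x.num * z.num).natDegree ≤ m :=
    (nd_le ht0 (mul_right_cancel₀ (mul_ne_zero ex ez) (by rw [← g2, ht]; ring))).trans d2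
  rw [natDegree_mul ex ez] at w0
  unfold hr
  rcases le_or_gt x.num.natDegree x.denom.natDegree with a | a <;>
    rcases le_or_gt z.num.natDegree z.denom.natDegree with b | b
  · omega
  · rw [add_comm, mixed ex b a] at w1
    omega
  · rw [mixed ez a b] at w1
    omega
  · have hc : x.num ≠ 0 := fun e => by simp [e] at a
    have hc' : z.num ≠ 0 := fun e => by simp [e] at b
    rw [natDegree_mul hc hc'] at w2
    omega

/-- the inequality on the level of `x`-coordinates -/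
lemma par_x {x1 x2 x z : RatFunc k} (hne : x1 + x2 ≠ 0) (hs : (x + z) * (x1 + x2) ^ 2 = 1)
    (hp : x * z * (x1 + x2) ^ 2 = x1 + x2 + x1 ^ 2 * x2 ^ 2) :
    hr x + hr z ≤ 2 * hr x1 + 2 * hr x2 := by
  have h1 := mul_den x1
  have h2 := mul_den x2
  have e1 : algebraMap k[X] (RatFunc k) x1.denom ≠ 0 := RatFunc.algebraMap_ne_zero x1.denom_ne_zero
  have e2 : algebraMap k[X] (RatFunc k) x2.denom ≠ 0 := RatFunc.algebraMap_ne_zero x2.denom_ne_zero
  have a1 : x1.num.natDegree ≤ hr x1 := le_max_left _ _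
  have a2 : x2.num.natDegree ≤ hr x2 := le_max_left _ _
  have b1 := den_le x1
  have b2 := den_le x2
  have mm : ∀ {p q : k[X]} {i j : ℕ}, p.natDegree ≤ i → q.natDegree ≤ j →
      (p * q).natDegree ≤ i + j := fun hp hq => natDegree_mul_le.trans (add_le_add hp hq)
  have hS : (x1.num * x2.denom + x2.num * x1.denom).natDegree ≤ hr x1 + hr x2 :=
    (natDegree_add_le _ _).trans (max_le (mm a1 b2) ((mm a2 b1).trans (add_comm _ _).le))
  have hSv : algebraMap k[X] (RatFunc k) (x1.num * x2.denom + x2.num * x1.denom) =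
      (x1 + x2) * algebraMap k[X] (RatFunc k) x1.denom * algebraMap k[X] (RatFunc k) x2.denom := by
    simp only [map_mul, map_add]
    rw [← h1, ← h2]
    ring
  have hS0 : x1.num * x2.denom + x2.num * x1.denom ≠ 0 := fun e => by
    rw [e, map_zero] at hSv
    exact mul_ne_zero (mul_ne_zero hne e1) e2 hSv.symm
  refine pair_le (u0 := (x1.num * x2.denom + x2.num * x1.denom) *
      (x1.num * x2.denom + x2.num * x1.denom))
    (u1 := (x1.denom * x2.denom) * (x1.denom * x2.denom))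
    (u2 := (x1.num * x2.denom + x2.num * x1.denom) * (x1.denom * x2.denom) +
      (x1.num * x2.num) * (x1.num * x2.num)) (mul_ne_zero hS0 hS0) ?_ ?_
    ((mm hS hS).trans (by omega)) ((mm (mm b1 b2) (mm b1 b2)).trans (by omega)) ?_
  · rw [map_mul, hSv]
    simp only [map_mul]
    linear_combination (algebraMap k[X] (RatFunc k) x1.denom *
      algebraMap k[X] (RatFunc k) x2.denom) ^ 2 * hs
  · rw [map_add, map_mul, map_mul, hSv]
    simp only [map_mul]
    rw [← h1, ← h2]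
    linear_combination (algebraMap k[X] (RatFunc k) x1.denom *
      algebraMap k[X] (RatFunc k) x2.denom) ^ 2 * hp
  · exact (natDegree_add_le _ _).trans (max_le ((mm hS (mm b1 b2)).trans (by omega))
      ((mm (mm a1 a2) (mm a1 a2)).trans (by omega)))

/-! ### abstract consequences -/

section Abstract

variable {Γ : Type*} [AddCommGroup Γ] {h : Γ → ℕ}

lemma par_eq (le : ∀ P Q, h (P + Q) + h (P - Q) ≤ 2 * h P + 2 * h Q)
    (dbl : ∀ P, h (P + P) = 4 * h P) (P Q : Γ) : h (P + Q) + h (P - Q) = 2 * h P + 2 * h Q := by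
  have h1 := le P Q
  have h2 := le (P + Q) (P - Q)
  have e1 : P + Q + (P - Q) = P + P := by abel
  have e2 : P + Q - (P - Q) = Q + Q := by abel
  rw [e1, e2, dbl, dbl] at h2
  omega

lemma nsmul_eq (h0 : h 0 = 0) (par : ∀ P Q, h (P + Q) + h (P - Q) = 2 * h P + 2 * h Q) (P : Γ)
    (n : ℕ) : h (n • P) = n ^ 2 * h P := by
  have key : ∀ n : ℕ, h (n • P) = n ^ 2 * h P ∧ h ((n + 1) • P) = (n + 1) ^ 2 * h P := by
    intro n
    induction n with
    | zero => simp [h0]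
    | succ n ih =>
      refine ⟨ih.2, ?_⟩
      have h1 := par ((n + 1) • P) P
      have e1 : (n + 1) • P + P = (n + 1 + 1) • P := (succ_nsmul _ _).symm
      have e2 : (n + 1) • P - P = n • P := by rw [succ_nsmul]; abel
      rw [e1, e2, ih.1, ih.2] at h1
      zify at h1 ⊢
      linear_combination h1
  exact (key n).1

/-- elements separated by height non-increasing sign changes are orthogonal -/
lemma sum_eq {ι : Type*} (h0 : h 0 = 0) (par : ∀ P Q, h (P + Q) + h (P - Q) = 2 * h P + 2 * h Q)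
    (φ : ι → Γ) (S : Finset ι)
    (sep : ∀ i ∈ S, ∀ j ∈ S, i ≠ j → ∃ g : Γ →+ Γ, (∀ P, h (g P) ≤ h P) ∧
      (∀ l ∈ S, g (φ l) = φ l ∨ g (φ l) = -φ l) ∧ g (φ i) = φ i ∧ g (φ j) ≠ φ j) :
    h (∑ i ∈ S, φ i) = ∑ i ∈ S, h (φ i) := by
  classical
  induction S using Finset.strongInduction with
  | H S ih =>
    rcases le_or_gt S.card 1 with hc | hc
    · rcases S.eq_empty_or_nonempty with rfl | ⟨i, hi⟩
      · simp [h0]
      · have : S = {i} := Finset.eq_singleton_iff_unique_mem.2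
          ⟨hi, fun j hj => Finset.card_le_one.1 hc j hj i hi⟩
        rw [this]
        simp
    · obtain ⟨i, hi, j, hj, hij⟩ := Finset.one_lt_card.1 hc
      obtain ⟨g, g1, g2, g3, g4⟩ := sep i hi j hj hij
      have sub : ∀ T ⊆ S, ∀ i ∈ T, ∀ j ∈ T, i ≠ j → ∃ g : Γ →+ Γ, (∀ P, h (g P) ≤ h P) ∧
          (∀ l ∈ T, g (φ l) = φ l ∨ g (φ l) = -φ l) ∧ g (φ i) = φ i ∧ g (φ j) ≠ φ j := by
        intro T hT a ha b hb hab
        obtain ⟨g', k1, k2, k3, k4⟩ := sep a (hT ha) b (hT hb) hab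
        exact ⟨g', k1, fun l hl => k2 l (hT hl), k3, k4⟩
      have hA := ih (S.filter fun l => g (φ l) = φ l)
        (Finset.filter_ssubset.2 ⟨j, hj, g4⟩) (sub _ (Finset.filter_subset _ _))
      have hB := ih (S.filter fun l => ¬ g (φ l) = φ l)
        (Finset.filter_ssubset.2 ⟨i, hi, not_not.2 g3⟩) (sub _ (Finset.filter_subset _ _))
      have gA : g (∑ l ∈ S.filter fun l => g (φ l) = φ l, φ l) =
          ∑ l ∈ S.filter fun l => g (φ l) = φ l, φ l := by
        rw [map_sum]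
        exact Finset.sum_congr rfl fun l hl => (Finset.mem_filter.1 hl).2
      have gB : g (∑ l ∈ S.filter fun l => ¬ g (φ l) = φ l, φ l) =
          -∑ l ∈ S.filter fun l => ¬ g (φ l) = φ l, φ l := by
        rw [map_sum, ← Finset.sum_neg_distrib]
        exact Finset.sum_congr rfl fun l hl =>
          (g2 l (Finset.mem_filter.1 hl).1).resolve_left (Finset.mem_filter.1 hl).2
      rw [← Finset.sum_filter_add_sum_filter_not S (fun l => g (φ l) = φ l) φ,
        ← Finset.sum_filter_add_sum_filter_not S (fun l => g (φ l) = φ l) fun l => h (φ l),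
        ← hA, ← hB]
      generalize (∑ l ∈ S.filter fun l => g (φ l) = φ l, φ l) = A at *
      generalize (∑ l ∈ S.filter fun l => ¬ g (φ l) = φ l, φ l) = B at *
      have k1 := g1 (A + B)
      have k2 := g1 (A - B)
      rw [map_add, gA, gB, ← sub_eq_add_neg] at k1
      rw [map_sub, gA, gB, sub_neg_eq_add] at k2
      have k3 := par A B
      omega

end Abstract

/-! ### the curve -/

variable [CharP k 2] {g : RatFunc k} {ht : G g → ℕ}

lemma ht_neg (hp : ∀ x y h, ht (pt g x y h) = hr x) (P : G g) : ht (-P) = ht P := by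
  rcases pt_cases P with rfl | ⟨x, y, h, rfl⟩
  · rw [neg_zero]
  · rw [neg_pt, hp, hp]

lemma ht_dbl (h0 : ht 0 = 0) (hp : ∀ x y h, ht (pt g x y h) = hr x) (P : G g) :
    ht (P + P) = 4 * ht P := by
  rcases pt_cases P with rfl | ⟨x, y, h, rfl⟩
  · rw [add_zero, h0]
  · obtain ⟨h₃, e⟩ := dbl_pt h
    rw [e, hp, hp, hr_pow]

lemma ht_pi (h0 : ht 0 = 0) (hp : ∀ x y h, ht (pt g x y h) = hr x) (P : G g) :
    ht (piH g P) = 2 * ht P := by
  rcases pt_cases P with rfl | ⟨x, y, h, rfl⟩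
  · rw [map_zero, h0]
  · obtain ⟨h₃, e⟩ := piH_pt h
    rw [e, hp, hp, hr_pow]

lemma ht_piN (h0 : ht 0 = 0) (hp : ∀ x y h, ht (pt g x y h) = hr x) (a : ℕ) (P : G g) :
    ht (piN g a P) = 2 ^ a * ht P := by
  induction a with
  | zero => rw [piN_zero, pow_zero, one_mul]
  | succ a ih => rw [piN_succ, ht_pi h0 hp, ih, pow_succ]; ring

lemma ht_le (h0 : ht 0 = 0) (hp : ∀ x y h, ht (pt g x y h) = hr x) (P Q : G g) :
    ht (P + Q) + ht (P - Q) ≤ 2 * ht P + 2 * ht Q := by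
  have h2 : (2 : RatFunc k) = 0 := two0
  rcases pt_cases P with rfl | ⟨x1, y1, q1, rfl⟩
  · rw [zero_add, zero_sub, ht_neg hp, h0]
    omega
  rcases pt_cases Q with rfl | ⟨x2, y2, q2, rfl⟩
  · rw [add_zero, sub_zero, h0]
    omega
  by_cases hx : x1 = x2
  · subst hx
    rcases pt_same_x q1 q2 with e | e
    · rw [e, sub_self, ht_dbl h0 hp, h0]
      omega
    · rw [e, add_neg_cancel, sub_neg_eq_add, ht_dbl h0 hp, ht_neg hp, h0]
      omega
  · have hne : x1 + x2 ≠ 0 := fun e => hx (by linear_combination e - x2 * h2)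
    have l1 : (y1 + y2) / (x1 + x2) * (x1 + x2) = y1 + y2 := div_mul_cancel₀ _ hne
    have l2 : (y1 + (y2 + 1)) / (x1 + x2) * (x1 + x2) = y1 + (y2 + 1) := div_mul_cancel₀ _ hne
    obtain ⟨h₃, e₃⟩ := add_pt q1 q2 hx l1
    obtain ⟨h₄, e₄⟩ := add_pt q1 (neg_eqn q2) hx l2
    rw [sub_eq_add_neg, neg_pt, e₃, e₄, hp, hp, hp, hp]
    clear e₃ e₄ h₃ h₄
    generalize (y1 + y2) / (x1 + x2) = a at l1
    generalize (y1 + (y2 + 1)) / (x1 + x2) = b at l2
    have v : ∀ l y : RatFunc k, y ^ 2 + y = x2 ^ 3 + g → l * (x1 + x2) = y1 + y →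
        (l ^ 2 + x1 + x2) * (x1 + x2) ^ 2 = y1 + y + x1 ^ 2 * x2 + x1 * x2 ^ 2 := by
      intro l y hy hl
      linear_combination (l * (x1 + x2) + y1 + y) * hl + q1 + hy +
        (g - y1 - y + y1 * y + x1 ^ 3 + x2 ^ 3 + x1 ^ 2 * x2 + x1 * x2 ^ 2) * h2
    have v1 := v a y2 q2 l1
    have v2 := v b (y2 + 1) (neg_eqn q2) l2
    refine par_x hne ?_ ?_
    · linear_combination v1 + v2 + (y1 + y2 + x1 ^ 2 * x2 + x1 * x2 ^ 2) * h2
    · apply mul_right_cancel₀ (pow_ne_zero 2 hne)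
      have : (a ^ 2 + x1 + x2) * (b ^ 2 + x1 + x2) * (x1 + x2) ^ 2 * (x1 + x2) ^ 2 =
          (y1 + y2 + x1 ^ 2 * x2 + x1 * x2 ^ 2) * (y1 + (y2 + 1) + x1 ^ 2 * x2 + x1 * x2 ^ 2) := by
        rw [← v1, ← v2]
        ring
      rw [this]
      linear_combination q1 + q2 + (g + y1 * y2 + (y1 + y2) * (x1 ^ 2 * x2 + x1 * x2 ^ 2) -
        x1 ^ 2 * x2 - x1 * x2 ^ 2) * h2

/-- exact parallelogram law -/
theorem ht_par (h0 : ht 0 = 0) (hp : ∀ x y h, ht (pt g x y h) = hr x) (P Q : G g) :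
    ht (P + Q) + ht (P - Q) = 2 * ht P + 2 * ht Q := par_eq (ht_le h0 hp) (ht_dbl h0 hp) P Q

theorem ht_nsmul (h0 : ht 0 = 0) (hp : ∀ x y h, ht (pt g x y h) = hr x) (P : G g) (n : ℕ) :
    ht (n • P) = n ^ 2 * ht P := nsmul_eq h0 (ht_par h0 hp) P n

theorem ht_sum (h0 : ht 0 = 0) (hp : ∀ x y h, ht (pt g x y h) = hr x) {ι : Type*} (φ : ι → G g)
    (S : Finset ι) (sep : ∀ i ∈ S, ∀ j ∈ S, i ≠ j → ∃ γ : G g →+ G g, (∀ P, ht (γ P) ≤ ht P) ∧
      (∀ l ∈ S, γ (φ l) = φ l ∨ γ (φ l) = -φ l) ∧ γ (φ i) = φ i ∧ γ (φ j) ≠ φ j) :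
    ht (∑ i ∈ S, φ i) = ∑ i ∈ S, ht (φ i) := sum_eq h0 (ht_par h0 hp) φ S sep

/-- a homomorphism induced by a ring map that does not raise degrees does not raise the height -/
theorem ht_hom_le (h0 : ht 0 = 0) (hp : ∀ x y h, ht (pt g x y h) = hr x)
    (τ : RatFunc k →+* RatFunc k) (σ : k[X] → k[X])
    (hσ : ∀ a, τ (algebraMap k[X] (RatFunc k) a) = algebraMap k[X] (RatFunc k) (σ a))
    (hd : ∀ a, (σ a).natDegree ≤ a.natDegree) (γ : G g →+ G g)
    (hγ : ∀ x y h, ∃ y' h', γ (pt g x y h) = pt g (τ x) y' h') (P : G g) : ht (γ P) ≤ ht P := by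
  rcases pt_cases P with rfl | ⟨x, y, h, rfl⟩
  · rw [map_zero]
  · obtain ⟨y', h', e⟩ := hγ x y h
    rw [e, hp, hp]
    exact hr_map_le τ σ hσ hd x

end Pool.Agent.MP_070445_nt.W71.HT
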