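import Pool.Agent.MP_070445_nt.W71.Base
import Pool.Agent.MP_070445_nt.W71.HT
import Pool.Agent.MP_070445_nt.W16.Main

/-! Definitions and the list of steps for the bound `exp (n ^ (1/2 - ε))`. -/

namespace Pool.Agent.MP_070445_nt.W71

open Polynomial

/-- Polynomials as rational functions. -/
noncomputable abbrev io (k : Type) [Field k] : k[X] →+* RatFunc k := algebraMap k[X] (RatFunc k)

/-- `M` is covered by at most `n` classes modulo `H`. -/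
def Cov {A : Type} [AddCommGroup A] (M H : AddSubgroup A) (n : ℕ) : Prop :=
  ∃ κ : A → Fin n, ∀ x ∈ M, ∀ y ∈ M, κ x = κ y → x - y ∈ H

section
variable {k : Type} [Field k]

/-- `τ` is the substitution `s ↦ s + v` on rational functions. -/
def IsT (v : k) (τ : RatFunc k →+* RatFunc k) : Prop :=
  ∀ p : k[X], τ (io k p) = io k (p.comp (X + C v))

/-- `dd` is the derivation `d/ds` on rational functions. -/
def IsDer (dd : RatFunc k →+ RatFunc k) : Prop :=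
  (∀ p : k[X], dd (io k p) = io k (derivative p)) ∧ ∀ x y, dd (x * y) = dd x * y + x * dd y

/-- The difference operator `p ↦ p(s + v) + p(s)`. -/
noncomputable def dl (v : k) : k[X] →+ k[X] :=
  AddMonoidHom.mk' (fun p => p.comp (X + C v) + p) fun a b => by rw [add_comp]; ring

theorem dl_apply (v : k) (p : k[X]) : dl v p = p.comp (X + C v) + p := rfl

/-- Polynomials killed by any `j` difference operators along `V`. -/
noncomputable def PP (V : AddSubgroup k) : ℕ → AddSubgroup k[X]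
  | 0 => ⊥
  | j + 1 => ⨅ v ∈ V, (PP V j).comap (dl v)

theorem mem_PP_zero (V : AddSubgroup k) (p : k[X]) : p ∈ PP V 0 ↔ p = 0 := AddSubgroup.mem_bot

theorem mem_PP_succ (V : AddSubgroup k) (j : ℕ) (p : k[X]) :
    p ∈ PP V (j + 1) ↔ ∀ v ∈ V, p.comp (X + C v) + p ∈ PP V j := by
  simp [PP, AddSubgroup.mem_iInf, dl_apply]

/-- Polynomials vanishing on `V`. -/
def van (V : AddSubgroup k) : AddSubgroup k[X] where
  carrier := {p | ∀ v ∈ V, p.eval v = 0}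
  zero_mem' := fun _ _ => eval_zero
  add_mem' := fun ha hb v hv => by rw [eval_add, ha v hv, hb v hv, add_zero]
  neg_mem' := fun ha v hv => by rw [eval_neg, ha v hv, neg_zero]

theorem mem_van (V : AddSubgroup k) (p : k[X]) : p ∈ van V ↔ ∀ v ∈ V, p.eval v = 0 := Iff.rfl

variable [CharP k 2]

/-- `φ` is a lift of the translation `s ↦ s + v` to the curve `y² + y = x³ + f(s)`. -/
def IsTr (f : k[X]) (v : k) (φ : G (io k f) →+ G (io k f)) : Prop :=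
  ∃ (τ : RatFunc k →+* RatFunc k) (d : RatFunc k), IsT v τ ∧ d ^ 2 + d = τ (io k f) + io k f ∧
    ∀ x y h, ∃ h', φ (pt (io k f) x y h) = pt (io k f) (τ x) (τ y + d) h'

/-- `δ` is the differential `P ↦ dx(P)/ds`, with the properties used. -/
def IsDif (f : k[X]) (D : ℕ) (δ : G (io k f) →+ k[X]) : Prop :=
  (∀ P, δ P = 0 ↔ P ∈ (piH (io k f)).range) ∧ (∀ P, (δ P).natDegree < D) ∧
    ∀ v φ, IsTr f v φ → ∀ P, δ (φ P) = (δ P).comp (X + C v)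

/-- The degree of the abscissa. -/
noncomputable def ht {g : RatFunc k} (P : G g) : ℕ :=
  WeierstrassCurve.Affine.Point.casesOn (motive := fun _ => ℕ) (W' := crv g) P 0 fun x _ _ => HT.hr x

omit [CharP k 2] in
theorem ht_zero {g : RatFunc k} : ht (0 : G g) = 0 := rfl

theorem ht_pt {g x y : RatFunc k} (h : y ^ 2 + y = x ^ 3 + g) : ht (pt g x y h) = HT.hr x := rfl

theorem ht_neg {g : RatFunc k} (P : G g) : ht (-P) = ht P := HT.ht_neg (fun _ _ h => ht_pt h) P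

theorem ht_par {g : RatFunc k} (P Q : G g) : ht (P + Q) + ht (P - Q) = 2 * ht P + 2 * ht Q :=
  HT.ht_par ht_zero (fun _ _ h => ht_pt h) P Q

theorem ht_nsmul {g : RatFunc k} (P : G g) (n : ℕ) : ht (n • P) = n ^ 2 * ht P :=
  HT.nsmul_eq ht_zero ht_par P n

theorem ht_piN {g : RatFunc k} (a : ℕ) (P : G g) : ht (piN g a P) = 2 ^ a * ht P := by
  rcases pt_cases P with rfl | ⟨x, y, h, rfl⟩
  · rw [map_zero, ht_zero, mul_zero]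
  · obtain ⟨y', h', e⟩ := piN_pt h a
    rw [e, ht_pt, ht_pt, HT.hr_pow]

theorem ht_mp (f u w : k[X]) (h : w ^ 2 + w = u ^ 3 + f) : ht (mp (io k) f u w h) = u.natDegree :=
  HT.hr_poly u

theorem ht_tr {f : k[X]} {v : k} {φ : G (io k f) →+ G (io k f)} (hφ : IsTr f v φ) (P : G (io k f)) :
    ht (φ P) ≤ ht P := by
  obtain ⟨τ, d, h1, -, h3⟩ := hφ
  rcases pt_cases P with rfl | ⟨x, y, h, rfl⟩
  · rw [map_zero]
  · obtain ⟨h', e⟩ := h3 x y h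
    rw [e, ht_pt, ht_pt]
    refine HT.hr_map_le τ (fun p => p.comp (X + C v)) h1 (fun p => ?_) x
    rw [natDegree_comp, natDegree_X_add_C, mul_one]

end

/-- The Reed–Muller count. -/
def Rn : ℕ → ℕ → ℕ
  | _, 0 => 0
  | 0, _ + 1 => 1
  | r + 1, j + 1 => Rn r (j + 1) + Rn r j

/-- The data of the auxiliary curve. -/
structure Dat (k : Type) [Field k] (r : ℕ) where
  V : AddSubgroup k
  L : k[X]
  f : k[X]
  S : Finset k
  w : k → k[X]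
  cardV : Nat.card V = 2 ^ r
  monic : L.Monic
  degL : L.natDegree = 2 ^ r
  inv : ∀ v ∈ V, L.comp (X + C v) = L
  L0 : L.eval 0 = 0
  degf : f.natDegree ≤ 2 * 2 ^ r + 1
  eqn : ∀ c ∈ S, w c ^ 2 + w c = (L + C c) ^ 3 + f
  pair : ∀ c ∈ S, ∀ c' ∈ S, c ≠ c' → (c + c') ^ 4 ≠ c + c'
  lo : 2 ^ r ≤ 4 * S.card
  hi : S.card ≤ 2 ^ r

/-- The points `(L + c, w_c)` read through a ring homomorphism `τ`. -/
noncomputable def Dat.ph {k K : Type} [Field k] [Field K] [CharP K 2] {r : ℕ} (D : Dat k r) (τ : k[X] →+* K)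
    (c : D.S) : G (τ D.f) := mp τ D.f (D.L + C c.1) (D.w c.1) (D.eqn c.1 c.2)

/-- The subgroup they generate over `k(s)`. -/
noncomputable def Dat.M {k : Type} [Field k] [CharP k 2] {r : ℕ} (D : Dat k r) :
    AddSubgroup (G (io k D.f)) := AddSubgroup.closure (Set.range (D.ph (io k)))

/-! ### The steps -/

def TEX : Prop := ∀ (k : Type) [Field k] (v : k), ∃ τ, IsT v τ

def DER : Prop := ∀ (k : Type) [Field k], ∃ dd : RatFunc k →+ RatFunc k, IsDer dd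

def DKER : Prop := ∀ (k : Type) [Field k] [CharP k 2] [Finite k] (dd : RatFunc k →+ RatFunc k),
  IsDer dd → ∀ x, dd x = 0 ↔ ∃ ξ, x = ξ ^ 2

def DTR : Prop := ∀ (k : Type) [Field k] (dd : RatFunc k →+ RatFunc k) (v : k)
  (τ : RatFunc k →+* RatFunc k), IsDer dd → IsT v τ → ∀ x, dd (τ x) = τ (dd x)

/-- Lowest terms on the curve. -/
def DLOW : Prop := ∀ (k : Type) [Field k] (f : k[X]) (x y : RatFunc k), y ^ 2 + y = x ^ 3 + io k f →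
  ∃ a c w : k[X], w ≠ 0 ∧ IsCoprime a w ∧ x * io k w ^ 2 = io k a ∧ y * io k w ^ 3 = io k c

def DPOL : Prop := ∀ (k : Type) [Field k] [CharP k 2] (f a c w : k[X]) (D : ℕ), 1 ≤ D →
  f.natDegree ≤ 2 * D + 1 → w ≠ 0 → IsCoprime a w → c ^ 2 + c * w ^ 3 = a ^ 3 + f * w ^ 6 →
    ∃ p : k[X], derivative a = p * w ^ 2 ∧ p.natDegree < D

def DIFF : Prop := ∀ (k : Type) [Field k] [CharP k 2] [Finite k] (f : k[X]) (D : ℕ), 1 ≤ D →
  f.natDegree ≤ 2 * D + 1 → ∃ δ, IsDif f D δ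

def RM : Prop := ∀ (k : Type) [Field k] [CharP k 2] [Finite k] (r j : ℕ) (V : AddSubgroup k),
  Nat.card V = 2 ^ r → Cov (PP V j) (van V) (Nat.card k ^ Rn r j)

/-- The filtration: differentials of the points `π^(-i) ψ`. -/
def FILT : Prop := ∀ (k : Type) [Field k] [CharP k 2] (f : k[X]) (D : ℕ) (δ : G (io k f) →+ k[X])
  (V : AddSubgroup k) (M : AddSubgroup (G (io k f))), IsDif f D δ →
  (∀ v ∈ V, ∃ φ, IsTr f v φ ∧ ∀ P ∈ M, ∃ Q ∈ M, φ P + P = 2 • Q) →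
    ∀ (i : ℕ) (P : G (io k f)), piN (io k f) i P ∈ M → δ P ∈ PP V (i / 2 + 1)

def IDX : Prop := ∀ (k : Type) [Field k] [CharP k 2] (f : k[X]) (D n a j : ℕ) (δ : G (io k f) →+ k[X])
  (V : AddSubgroup k) (M : AddSubgroup (G (io k f))), IsDif f D δ → 1 ≤ D → Nat.card V = D →
  Cov (PP V j) (van V) n → (∀ i < a, ∀ P, piN (io k f) i P ∈ M → δ P ∈ PP V j) →
    Cov M (piN (io k f) a).range (n ^ a)

def PMONO : Prop := ∀ (k : Type) [Field k] (V : AddSubgroup k) (i j : ℕ), i ≤ j → PP V i ≤ PP V j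

/-- Lifted translations act on the points by signs. -/
def CHA : Prop := ∀ (k : Type) [Field k] [CharP k 2] (r : ℕ) (D : Dat k r) (v : k), v ∈ D.V →
  ∀ c : D.S, ∃ φ, IsTr D.f v φ ∧ φ (D.ph (io k) c) = D.ph (io k) c ∧
    (∀ e, φ (D.ph (io k) e) = D.ph (io k) e ∨ φ (D.ph (io k) e) = -D.ph (io k) e) ∧
    ∀ e, φ (D.ph (io k) e) = D.ph (io k) e →
      (D.w c.1 + D.w e.1).comp (X + C v) = D.w c.1 + D.w e.1

def CHB : Prop := ∀ (k : Type) [Field k] [CharP k 2] (r : ℕ) (D : Dat k r), ∀ c ∈ D.S, ∀ e ∈ D.S,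
  c ≠ e → ∃ v ∈ D.V, (D.w c + D.w e).comp (X + C v) ≠ D.w c + D.w e

def GEN1 : Prop := ∀ (k : Type) [Field k] [CharP k 2] [Finite k] (r a : ℕ) (D : Dat k r),
  Cov D.M (piN (io k D.f) a).range (Nat.card k ^ (a * Rn r (a / 2 + 1)))

def GEN2 : Prop := ∀ (k : Type) [Field k] [CharP k 2] (r : ℕ) (D : Dat k r) (n : D.S → ℤ), n ≠ 0 →
  (∀ c, |n c| ≤ 1) → 0 < ht (∑ c, n c • D.ph (io k) c) ∧ ht (∑ c, n c • D.ph (io k) c) ≤ 4 ^ r

/-- Reduction: a relation after specialisation is a pole of the abscissa. -/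
def RED : Prop := ∀ (k F ι : Type) [Field k] [CharP k 2] [Field F] [CharP F 2] (ev : k[X] →+* F)
  (f : k[X]) (u w : ι → k[X]) (h : ∀ i, w i ^ 2 + w i = u i ^ 3 + f) (S : Finset ι) (n : ι → ℤ)
  (x y : RatFunc k) (hx : y ^ 2 + y = x ^ 3 + io k f),
  ∑ i ∈ S, n i • mp (io k) f (u i) (w i) (h i) = pt (io k f) x y hx →
  ∑ i ∈ S, n i • mp ev f (u i) (w i) (h i) = 0 → ev x.denom = 0

def TORS : Prop := ∀ (F : Type) [Field F] [CharP F 2] (g : F) (N : ℕ), 0 < N →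
  ∃ T : Finset (G g), T.card ≤ 2 * N ^ 2 + 1 ∧ ∀ P : G g, N • P = 0 → P ∈ T

def PIG : Prop := ∀ (A B ι : Type) [AddCommGroup A] [AddCommGroup B] [Fintype ι] (φ : ι → A)
  (ψ : ι → B) (M H : AddSubgroup A) (T : Finset B) (N q : ℕ), (∀ i, φ i ∈ M) → Cov M H q →
  (∀ i, N • ψ i = 0) → (∀ P, N • P = 0 → P ∈ T) → T.card * q < 2 ^ Fintype.card ι →
    ∃ n : ι → ℤ, n ≠ 0 ∧ (∀ i, |n i| ≤ 1) ∧ ∑ i, n i • φ i ∈ H ∧ ∑ i, n i • ψ i = 0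

def ZERO : Prop := ∀ (k F : Type) [Field k] [Field F] [CharP F 2] (j : k →+* F) (r m : ℕ)
  (L β : k[X]) (s : F), 1 ≤ r → (∀ z : k, z ^ 4 ^ r = z) → β ≠ 0 → β.eval₂ j s = 0 →
  (∀ a b : ℕ, L.eval₂ j s ^ 2 ^ a = L.eval₂ j s ^ 2 ^ b → a ≡ b [MOD m]) → m ≤ 2 * r * β.natDegree

def CORE : Prop := ∀ (k F : Type) [Field k] [CharP k 2] [Finite k] [Field F] [CharP F 2]
  [IsAlgClosed F] (j : k →+* F) (r a m N : ℕ) (D : Dat k r) (t : F), 1 ≤ r → 0 < N →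
  Nat.card k ≤ 4 ^ r → (∀ z : k, z ^ 4 ^ r = z) →
  (∀ c ∈ D.S, ∃ y h, N • pt (0 : F) (t + j c) y h = 0) →
  (∀ a b : ℕ, t ^ 2 ^ a = t ^ 2 ^ b → a ≡ b [MOD m]) →
  (2 * N ^ 2 + 1) * (4 ^ r) ^ (a * Rn r (a / 2 + 1)) < 2 ^ D.S.card → m * 2 ^ a ≤ 2 * r * 4 ^ r

/-- A quarter of a finite additive group with pairwise sums outside `F₄`. -/
def SEC : Prop := ∀ (k : Type) [Field k] [CharP k 2] (V : AddSubgroup k) [Finite V],
  ∃ S : Finset k, (∀ c ∈ S, c ∈ V) ∧ Nat.card V ≤ 4 * S.card ∧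
    ∀ c ∈ S, ∀ c' ∈ S, c ≠ c' → (c + c') ^ 4 ≠ c + c'

def DATA : Prop := ∀ (F : Type) [Field F] [CharP F 2] [IsAlgClosed F] (r : ℕ), 1 ≤ r →
  ∃ (k : Type) (_ : Field k) (_ : CharP k 2) (_ : Finite k) (j : k →+* F) (D : Dat k r),
    Nat.card k ≤ 4 ^ r ∧ (∀ z : k, z ^ 4 ^ r = z) ∧ ∀ c ∈ D.S, c ^ 2 ^ r = c

/-- The curves, and the torsion points a unit produces. -/
def STEP : Prop := ∀ (F : Type) [Field F] [CharP F 2] [IsAlgClosed F] (r K : ℕ), 1 ≤ r → 2 ≤ K →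
  ∃ (e : ℕ) (T : Finset ℕ) (t : F), (∀ i ∈ T, i ≤ e) ∧ e ∈ T ∧ r ≤ e + 1 ∧ e + 1 ≤ K + r ∧
    (∀ a b : ℕ, t ^ 2 ^ a = t ^ 2 ^ b → a ≡ b [MOD 2 ^ K - 1]) ∧
    ∀ (a b : F[X]) (κ : F) (N : ℕ), κ ≠ 0 → N ≠ 0 → b.eval 0 ≠ 0 →
      a ^ 2 + a * b + b ^ 2 * H16w.fp F T = C κ * X ^ N →
        ∀ c : F, c ^ 2 ^ r = c → ∃ y h, N • pt (0 : F) (t + c) y h = 0

def NUM0 : Prop := ∀ (lam : ℝ), 1 ≤ lam → ∀ r j : ℕ, (Rn r j : ℝ) ≤ lam ^ j * (1 + 1 / lam) ^ r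

def NUM1 : Prop := ∀ η : ℝ, 0 < η → ∃ r₀ : ℕ, ∀ r ≥ r₀, ∀ a : ℕ, (a : ℝ) ≤ (1 - η) * r →
  16 * (r * (a * Rn r (a / 2 + 1))) ≤ 2 ^ r

def NUM2 : Prop := ∀ ε : ℝ, 0 < ε → ∀ n₀ : ℕ, ∃ r a K : ℕ, 3 ≤ r ∧ n₀ ≤ r ∧ 2 ≤ K ∧
  16 * (r * (a * Rn r (a / 2 + 1))) ≤ 2 ^ r ∧ 2 * r * 4 ^ r < (2 ^ K - 1) * 2 ^ a ∧
  ∀ n R : ℕ, n ≤ 2 ^ (K + r) + 1 → 2 ^ 2 ^ (r - 3) ≤ 2 * (n + R + (n + R)) ^ 2 + 1 →
    Real.exp ((n : ℝ) ^ (1 / 2 - ε)) ≤ R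

/-- The bound on `N`. -/
def TOP : Prop := ∀ (F : Type) [Field F] [CharP F 2] [IsAlgClosed F] (r a K : ℕ), 3 ≤ r → 2 ≤ K →
  16 * (r * (a * Rn r (a / 2 + 1))) ≤ 2 ^ r → 2 * r * 4 ^ r < (2 ^ K - 1) * 2 ^ a →
  ∃ (e : ℕ) (T : Finset ℕ), (∀ i ∈ T, i ≤ e) ∧ e ∈ T ∧ r ≤ e + 1 ∧ e + 1 ≤ K + r ∧
    ∀ (a b : F[X]) (κ : F) (N : ℕ), κ ≠ 0 → N ≠ 0 → b.eval 0 ≠ 0 →
      a ^ 2 + a * b + b ^ 2 * H16w.fp F T = C κ * X ^ N → 2 ^ 2 ^ (r - 3) ≤ 2 * N ^ 2 + 1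

def MAIN : Prop := ∀ (k : Type) [Field k] [Finite k] [CharP k 2] (ε : ℝ), 0 < ε → ∀ n₀ : ℕ,
  ∃ A B : k[X], B.Monic ∧ n₀ ≤ B.natDegree ∧ A.natDegree < 2 * B.natDegree ∧
    IsCoprime B (derivative A ^ 2 + A * derivative B ^ 2) ∧
    (∃ t u : k[X], u ≠ 0 ∧ t ^ 2 + B * t * u + A * u ^ 2 = 1) ∧
    ∀ (t u : k[X]) (a : k), a ≠ 0 → u ≠ 0 → t ^ 2 + B * t * u + A * u ^ 2 = C a →
      Real.exp ((B.natDegree : ℝ) ^ (1 / 2 - ε)) ≤ u.natDegree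

end Pool.Agent.MP_070445_nt.W71
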