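import Pool.Agent.MP_070445_nt.W71.Defs

namespace Pool.Agent.MP_070445_nt.W71

open Polynomial

theorem gen2 (h1 : CHA) (h2 : CHB) : GEN2 := by
  intro k _ _ r D n hn hb
  classical
  have hpm : ∀ c, n c ≠ 0 → n c = 1 ∨ n c = -1 := fun c hc => by
    have := abs_le.1 (hb c)
    omega
  have hs : ∑ c, n c • D.ph (io k) c =
      ∑ c ∈ Finset.univ.filter (fun c => n c ≠ 0), n c • D.ph (io k) c := by
    symm
    apply Finset.sum_filter_of_ne
    intro c _ hc h0
    apply hc
    rw [h0, zero_smul]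
  have hh : ∀ c : D.S, ht (D.ph (io k) c) = 2 ^ r := fun c => by
    rw [Dat.ph, ht_mp, natDegree_add_C, D.degL]
  have hsum : ht (∑ c ∈ Finset.univ.filter (fun c => n c ≠ 0), n c • D.ph (io k) c) =
      ∑ c ∈ Finset.univ.filter (fun c => n c ≠ 0), ht (n c • D.ph (io k) c) := by
    refine HT.ht_sum ht_zero (fun _ _ h => ht_pt h) (fun c => n c • D.ph (io k) c) _ ?_
    intro i _ j hj hij
    have hj' : n j ≠ 0 := (Finset.mem_filter.1 hj).2
    obtain ⟨v, hv, hne⟩ := h2 k r D i.1 i.2 j.1 j.2 fun h => hij (Subtype.ext h)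
    obtain ⟨φ, t1, t2, t3, t4⟩ := h1 k r D v hv i
    refine ⟨φ, ht_tr t1, fun l _ => ?_, ?_, fun h => hne (t4 j ?_)⟩
    · rcases t3 l with h | h
      · left; rw [map_zsmul, h]
      · right; rw [map_zsmul, h, smul_neg]
    · rw [map_zsmul, t2]
    · rcases hpm j hj' with h' | h'
      · simpa only [h', one_smul] using h
      · simpa only [h', neg_smul, one_smul, map_neg, neg_inj] using h
  have hc : ∑ c ∈ Finset.univ.filter (fun c => n c ≠ 0), ht (n c • D.ph (io k) c) =
      (Finset.univ.filter (fun c => n c ≠ 0)).card * 2 ^ r := by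
    rw [← smul_eq_mul, ← Finset.sum_const]
    refine Finset.sum_congr rfl fun c hc => ?_
    rcases hpm c (Finset.mem_filter.1 hc).2 with h' | h'
    · rw [h', one_smul, hh]
    · rw [h', neg_smul, one_smul, ht_neg, hh]
  rw [hs, hsum, hc]
  constructor
  · refine Nat.mul_pos (Finset.card_pos.2 ?_) (Nat.pos_of_ne_zero (by positivity))
    by_contra h0
    apply hn
    funext c
    by_contra hc0
    exact h0 ⟨c, Finset.mem_filter.2 ⟨Finset.mem_univ _, hc0⟩⟩
  · have a1 : (Finset.univ.filter (fun c => n c ≠ 0)).card ≤ 2 ^ r := by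
      refine (Finset.card_le_univ _).trans ?_
      rw [Fintype.card_coe]; exact D.hi
    calc _ ≤ 2 ^ r * 2 ^ r := Nat.mul_le_mul_right _ a1
      _ = 4 ^ r := by rw [← mul_pow]; norm_num

end Pool.Agent.MP_070445_nt.W71
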