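import Pool.Agent.MP_070445_nt.W71.Defs

namespace Pool.Agent.MP_070445_nt.W71

open Polynomial

theorem tex : TEX := by
  intro k _ v
  have hg : Function.Injective ((io k).comp (compRingHom (X + C v))) := by
    rw [injective_iff_map_eq_zero]
    intro p hp
    have h1 : p.comp (X + C v) = 0 := (IsFractionRing.injective k[X] (RatFunc k)) (by
      rw [map_zero]; exact hp)
    exact comp_X_add_C_eq_zero_iff.1 h1
  exact ⟨IsFractionRing.lift hg, fun p => IsFractionRing.lift_algebraMap hg p⟩

end Pool.Agent.MP_070445_nt.W71
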